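import Pool.Agent.Lib.MP_e3a8c8_an.Finite

/-!
From finite sets to arbitrary sets by compactness.
-/

set_option autoImplicit false

noncomputable section

namespace Pool.Agent.Lib.PickPairs

open scoped ComplexOrder Matrix InnerProductSpace
open Set

universe u v

variable {X : Type u}

/-- Restriction of a function of two variables to a finite set. -/
def restr (F : Finset X) (p : X → X → ℂ) : F → F → ℂ := fun i j => p i j

lemma continuous_restr (F : Finset X) : Continuous (restr F) := by
  unfold restr
  fun_prop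

/-- The set of candidates for the finite set `F`. -/
def candidates (k ℓ : Matrix X X ℂ) (z : X) (F : Finset X) : Set (X → X → ℂ) :=
  (Set.pi univ fun _ => Set.pi univ fun _ => Metric.closedBall (0 : ℂ) 1) ∩
  ({p | (Matrix.of (restr F p)).PosSemidef} ∩
    ({p | (Matrix.of (restr F (fun x y => zker ℓ z x y - p x y * ℓ x y))).PosSemidef} ∩
      {p | (Matrix.of (restr F (fun x y => p x y * k x y - zker k z x y))).PosSemidef}))

lemma candidates_closed (k ℓ : Matrix X X ℂ) (z : X) (F : Finset X) :
    IsClosed (candidates k ℓ z F) := by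
  unfold candidates
  refine IsClosed.inter ?_ (IsClosed.inter ?_ (IsClosed.inter ?_ ?_))
  · exact isClosed_set_pi fun _ _ => isClosed_set_pi fun _ _ => Metric.isClosed_closedBall
  · exact isClosed_psd.preimage (continuous_restr F)
  · exact isClosed_psd.preimage ((continuous_restr F).comp (by fun_prop))
  · exact isClosed_psd.preimage ((continuous_restr F).comp (by fun_prop))

lemma candidates_compact (k ℓ : Matrix X X ℂ) (z : X) (F : Finset X) :
    IsCompact (candidates k ℓ z F) := by
  refine IsCompact.of_isClosed_subset (s := Set.pi univ fun _ => Set.pi univ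
    fun _ => Metric.closedBall (0 : ℂ) 1) ?_ (candidates_closed k ℓ z F) inter_subset_left
  exact isCompact_univ_pi fun _ => isCompact_univ_pi fun _ => isCompact_closedBall _ _

lemma candidates_anti (k ℓ : Matrix X X ℂ) (z : X) {F G : Finset X} (h : F ⊆ G) :
    candidates k ℓ z G ⊆ candidates k ℓ z F := by
  intro p hp
  refine ⟨hp.1, ?_, ?_, ?_⟩
  · exact Matrix.PosSemidef.submatrix hp.2.1 (fun i : F => (⟨i.1, h i.2⟩ : G))
  · exact Matrix.PosSemidef.submatrix hp.2.2.1 (fun i : F => (⟨i.1, h i.2⟩ : G))
  · exact Matrix.PosSemidef.submatrix hp.2.2.2 (fun i : F => (⟨i.1, h i.2⟩ : G))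

lemma zker_diag_le {ℓ : Matrix X X ℂ} (hℓ : ℓ.PosSemidef) (z x : X) :
    (zker ℓ z x x).re ≤ (ℓ x x).re := by
  rw [zker_apply, Complex.sub_re]
  have h1 : 0 ≤ (ℓ x z * ℓ z x / ℓ z z).re := by
    obtain ⟨h0, hr⟩ := psd_diag hℓ z
    have h2 : ℓ x z * ℓ z x = ((Complex.normSq (ℓ z x) : ℝ) : ℂ) := by
      rw [← hℓ.isHermitian.apply x z, Complex.star_def, ← Complex.normSq_eq_conj_mul_self]
    rw [h2, ← hr, ← Complex.ofReal_div, Complex.ofReal_re]
    exact div_nonneg (Complex.normSq_nonneg _) h0
  linarith

lemma candidates_nonempty [DecidableEq X] {k ℓ : Matrix X X ℂ} (hℓ : ℓ.PosSemidef)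
    (hne : ∀ x, ℓ x x ≠ 0) (z : X) (F : Finset X) (h : CertOn k ℓ z F) :
    (candidates k ℓ z F).Nonempty := by
  obtain ⟨p, hp, h1, h2⟩ := h
  let P : X → X → ℂ := fun x y => if h : x ∈ F ∧ y ∈ F then p ⟨x, h.1⟩ ⟨y, h.2⟩ else 0
  have hP : ∀ i j : F, P i j = p i j := by
    intro i j
    simp only [P]
    rw [dif_pos ⟨i.2, j.2⟩]
  have hdiag : ∀ i : F, (p i i).re ≤ 1 := by
    intro i
    have h3 := (Complex.nonneg_iff.mp (h1.diag_nonneg (i := i))).1
    obtain ⟨h0, hr⟩ := psd_diag hℓ i.1
    have hpos : 0 < (ℓ i i).re := by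
      apply lt_of_le_of_ne h0
      intro h4
      apply hne i.1
      rw [← hr, ← h4, Complex.ofReal_zero]
    simp only [Matrix.sub_apply, Matrix.submatrix_apply, Matrix.hadamard_apply,
      Complex.sub_re] at h3
    rw [← hr, Complex.re_mul_ofReal] at h3
    have h5 := zker_diag_le hℓ z i.1
    by_contra hc
    push Not at hc
    have := mul_lt_mul_of_pos_right hc hpos
    linarith
  have hentry : ∀ i j : F, ‖p i j‖ ≤ 1 := fun i j => psd_entry_le hp i j (hdiag i) (hdiag j)
  refine ⟨P, ?_, ?_, ?_, ?_⟩
  · intro x _ y _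
    rw [mem_closedBall_zero_iff]
    by_cases hxy : x ∈ F ∧ y ∈ F
    · simp only [P]
      rw [dif_pos hxy]
      exact hentry _ _
    · simp only [P]
      rw [dif_neg hxy, norm_zero]
      exact zero_le_one
  · have e : Matrix.of (restr F P) = p := by
      ext i j
      exact hP i j
    change (Matrix.of (restr F P)).PosSemidef
    rw [e]
    exact hp
  · change (Matrix.of (restr F (fun x y => zker ℓ z x y - P x y * ℓ x y))).PosSemidef
    have e : Matrix.of (restr F (fun x y => zker ℓ z x y - P x y * ℓ x y))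
        = (zker ℓ z).submatrix Subtype.val Subtype.val
          - p ⊙ ℓ.submatrix Subtype.val Subtype.val := by
      ext i j
      simp only [restr, Matrix.of_apply, Matrix.sub_apply, Matrix.submatrix_apply,
        Matrix.hadamard_apply, hP]
    rw [e]
    exact h1
  · change (Matrix.of (restr F (fun x y => P x y * k x y - zker k z x y))).PosSemidef
    have e : Matrix.of (restr F (fun x y => P x y * k x y - zker k z x y))
        = p ⊙ k.submatrix Subtype.val Subtype.val
          - (zker k z).submatrix Subtype.val Subtype.val := by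
      ext i j
      simp only [restr, Matrix.of_apply, Matrix.sub_apply, Matrix.submatrix_apply,
        Matrix.hadamard_apply, hP]
    rw [e]
    exact h2

/-- Certificates on all finite sets give a certificate on `X`. -/
theorem cert_of_finite [DecidableEq X] {k ℓ : Matrix X X ℂ} (hℓ : ℓ.PosSemidef)
    (hne : ∀ x, ℓ x x ≠ 0) (z : X) (h : ∀ F : Finset X, CertOn k ℓ z F) :
    CertAt k ℓ (zker k z) (zker ℓ z) := by
  obtain ⟨p, hp⟩ := IsCompact.nonempty_iInter_of_directed_nonempty_isCompact_isClosed
    (candidates k ℓ z)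
    (fun F G => ⟨F ∪ G, candidates_anti k ℓ z Finset.subset_union_left,
      candidates_anti k ℓ z Finset.subset_union_right⟩)
    (fun F => candidates_nonempty hℓ hne z F (h F))
    (fun F => candidates_compact k ℓ z F) (fun F => candidates_closed k ℓ z F)
  rw [mem_iInter] at hp
  refine ⟨Matrix.of p, ?_, ?_, ?_⟩
  · exact psd_of_finite fun F => (hp F).2.1
  · exact psd_of_finite fun F => (hp F).2.2.1
  · exact psd_of_finite fun F => (hp F).2.2.2

/-- Certificates from the abstract interpolation property, when `ℓ` does not vanish on the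
diagonal. -/
theorem cert_of_absCP {k ℓ : Matrix X X ℂ} (hk : k.PosSemidef) (hℓ : ℓ.PosSemidef)
    (hne : ∀ x, ℓ x x ≠ 0) (hCP : AbsCP k ℓ) (z : X) : CertAt k ℓ (zker k z) (zker ℓ z) := by
  classical
  exact cert_of_finite hℓ hne z (fun F => certOn_all hk hℓ hne hCP F.card F rfl z)

end Pool.Agent.Lib.PickPairs

end
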