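import Mathlib

/-!
Complete Pick pairs and Shimorin certificates: definitions.

A kernel on `X` is a matrix `k : Matrix X X ℂ` with `k.PosSemidef` (Mathlib's notion, which for an
infinite index type means positive semidefiniteness on finitely supported vectors).
-/

set_option autoImplicit false

noncomputable section

namespace Pool.Agent.Lib.PickPairs

open scoped ComplexOrder Matrix InnerProductSpace

universe u

variable {X : Type u}

/-- `ℂ^N` with its Hilbert space structure. -/
abbrev CN (N : ℕ) : Type := EuclideanSpace ℂ (Fin N)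

/-- The operator-valued kernel `k(x, y) I_N` on `ℂ^N`. -/
def tensorKernel (k : Matrix X X ℂ) (N : ℕ) : Matrix X X (CN N →L[ℂ] CN N) :=
  Matrix.of fun x y => k x y • ContinuousLinearMap.id ℂ (CN N)

/-- Coordinates on `ℂ^N`. -/
def coord {N : ℕ} (a : Fin N) (v : CN N) : ℂ := v a

lemma coord_zero {N : ℕ} (a : Fin N) : coord a (0 : CN N) = 0 := rfl

/-- If `k` is a kernel then so is `k(x, y) I_N`, in the operator-valued sense. -/
theorem posSemidef_tensorKernel {k : Matrix X X ℂ} (hk : k.PosSemidef) (N : ℕ) :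
    (tensorKernel k N).PosSemidef := by
  classical
  have hherm : (tensorKernel k N).IsHermitian := by
    refine Matrix.IsHermitian.ext fun x y => ?_
    simp only [tensorKernel, Matrix.of_apply]
    have h1 : star (k y x) = k x y := hk.isHermitian.apply x y
    have h2 : star (ContinuousLinearMap.id ℂ (CN N)) = ContinuousLinearMap.id ℂ (CN N) :=
      star_one _
    rw [star_smul, h1, h2]
  refine ((RKHS.posSemidef_tfae (K := tensorKernel k N)).out 0 2).mpr ?_
  refine ⟨hherm, fun vv => ?_⟩
  -- expand in coordinates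
  let co : Fin N → (X →₀ ℂ) := fun a => vv.mapRange (coord a) (coord_zero a)
  have key : (vv.sum fun x w => vv.sum fun x' w' => ⟪tensorKernel k N x' x w, w'⟫_ℂ)
      = ∑ a : Fin N, ((co a).sum fun x w => (co a).sum fun x' w' => star w * k x x' * w') := by
    have h1 : ∀ a : Fin N, ((co a).sum fun x w => (co a).sum fun x' w' =>
          star w * k x x' * w') = ∑ x ∈ vv.support, ∑ x' ∈ vv.support,
          star (coord a (vv x)) * k x x' * coord a (vv x') := by
      intro a
      simp only [co]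
      rw [Finsupp.sum_mapRange_index (by simp)]
      rw [Finsupp.sum]
      refine Finset.sum_congr rfl fun x _ => ?_
      rw [Finsupp.sum_mapRange_index (by simp)]
      rw [Finsupp.sum]
    simp_rw [h1]
    rw [Finsupp.sum]
    simp_rw [Finsupp.sum]
    rw [Finset.sum_comm (s := (Finset.univ : Finset (Fin N)))]
    refine Finset.sum_congr rfl fun x _ => ?_
    rw [Finset.sum_comm (s := (Finset.univ : Finset (Fin N)))]
    refine Finset.sum_congr rfl fun x' _ => ?_
    have h2 : k x x' = star (k x' x) := (hk.isHermitian.apply x x').symm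
    simp only [tensorKernel, Matrix.of_apply, smul_apply,
      ContinuousLinearMap.id_apply, inner_smul_left, PiLp.inner_apply]
    rw [Finset.mul_sum]
    refine Finset.sum_congr rfl fun a _ => ?_
    rw [h2]
    simp only [RCLike.inner_apply, RCLike.star_def, coord]
    ring
  rw [key, map_sum]
  refine Finset.sum_nonneg fun a _ => ?_
  exact (RCLike.nonneg_iff.mp (hk.2 (co a))).1

instance instFactTensor (k : Matrix X X ℂ) [hk : Fact k.PosSemidef] (N : ℕ) :
    Fact (tensorKernel k N).PosSemidef := ⟨posSemidef_tensorKernel hk.out N⟩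

/-- The Hilbert space `H_k ⊗ ℂ^N`, realised as the `ℂ^N`-valued reproducing kernel Hilbert space
on `X` with kernel `k(x, y) I_N`. -/
abbrev HkN (k : Matrix X X ℂ) [Fact k.PosSemidef] (N : ℕ) : Type u :=
  RKHS.OfKernel (tensorKernel k N)

/-- `Φ : X → M_N` is a multiplier from `H_k ⊗ ℂ^N` to `H_ℓ ⊗ ℂ^N` of norm at most one: for every
`f` in the first space the function `x ↦ Φ(x) f(x)` belongs to the second one and has norm at most
the norm of `f`. -/
def IsContractiveMultiplier (k ℓ : Matrix X X ℂ) [Fact k.PosSemidef] [Fact ℓ.PosSemidef] {N : ℕ}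
    (Φ : X → Matrix (Fin N) (Fin N) ℂ) : Prop :=
  ∀ f : HkN k N, ∃ g : HkN ℓ N, (∀ x, g x = Matrix.toEuclideanLin (Φ x) (f x)) ∧ ‖g‖ ≤ ‖f‖

/-- The Pick matrix `[ℓ(z_i, z_j) I_N - k(z_i, z_j) W_i W_j^*]_{i,j}`. -/
def pickMatrix (k ℓ : Matrix X X ℂ) {n N : ℕ} (z : Fin n → X)
    (W : Fin n → Matrix (Fin N) (Fin N) ℂ) : Matrix (Fin n × Fin N) (Fin n × Fin N) ℂ :=
  Matrix.of fun p q =>
    ℓ (z p.1) (z q.1) * (1 : Matrix (Fin N) (Fin N) ℂ) p.2 q.2
      - k (z p.1) (z q.1) * (W p.1 * (W q.1)ᴴ) p.2 q.2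

/-- The interpolation property for the data `z_i ↦ W_i`: if the Pick matrix is positive
semidefinite then there is a multiplier of norm at most one interpolating the data. -/
def PickProperty (k ℓ : Matrix X X ℂ) [Fact k.PosSemidef] [Fact ℓ.PosSemidef] {n N : ℕ}
    (z : Fin n → X) (W : Fin n → Matrix (Fin N) (Fin N) ℂ) : Prop :=
  (pickMatrix k ℓ z W).PosSemidef →
    ∃ Φ : X → Matrix (Fin N) (Fin N) ℂ, IsContractiveMultiplier k ℓ Φ ∧ ∀ i, Φ (z i) = W i

/-- `(k, ℓ)` is a complete Pick pair. The points `z_1, …, z_n` are required to be distinct, so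
this is the weakest reading of the definition. -/
def IsCPPair (k ℓ : Matrix X X ℂ) [Fact k.PosSemidef] [Fact ℓ.PosSemidef] : Prop :=
  ∀ (n N : ℕ), 1 ≤ n → 1 ≤ N → ∀ (z : Fin n → X) (W : Fin n → Matrix (Fin N) (Fin N) ℂ),
    Function.Injective z → PickProperty k ℓ z W

/-- `k^z(x, y) = k(x, y) - k(x, z) k(z, y) / k(z, z)`; since Lean's division by zero is zero,
`k^z = k` if `k(z, z) = 0`. -/
def zker (k : Matrix X X ℂ) (z : X) : Matrix X X ℂ :=
  Matrix.of fun x y => k x y - k x z * k z y / k z z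

/-- A Shimorin certificate: kernels `p[z]` with `ℓ^z ⪰ p[z] ℓ` and `k^z ⪯ p[z] k`. -/
def HasShimorinCertificate (k ℓ : Matrix X X ℂ) : Prop :=
  ∃ p : X → Matrix X X ℂ, ∀ z, (p z).PosSemidef ∧
    (zker ℓ z - p z ⊙ ℓ).PosSemidef ∧ (p z ⊙ k - zker k z).PosSemidef

end Pool.Agent.Lib.PickPairs

end
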