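import Pool.Agent.Lib.MP_e3a8c8_an.Main

/-!
A degenerate complete Pick pair (`ℓ(0, 0) = 0` but `k(0, 0) = 1`) on three points without a
Shimorin certificate.
-/

set_option autoImplicit false

noncomputable section

namespace Pool.Agent.Lib.PickPairs

open scoped ComplexOrder Matrix InnerProductSpace

universe u v

section general

variable {Y : Type} {V : Type*} [NormedAddCommGroup V] [InnerProductSpace ℂ V]

lemma pickForm_isHermitian {k ℓ : Matrix Y Y ℂ} (hk : k.PosSemidef) (hℓ : ℓ.PosSemidef)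
    {I : Type*} (d : I → Y × V × V) : (pickForm k ℓ d).IsHermitian := by
  refine Matrix.IsHermitian.ext fun i j => ?_
  rw [pickForm_apply, pickForm_apply, star_sub, star_mul', star_mul', hk.isHermitian.apply,
    hℓ.isHermitian.apply, Complex.star_def, inner_conj_symm, inner_conj_symm]

/-- Positivity on basis vectors implies positivity. -/
lemma psd_of_basis {k ℓ : Matrix Y Y ℂ} (hk : k.PosSemidef) (hℓ : ℓ.PosSemidef) {N : ℕ}
    (U : Y → (CN N →ₗ[ℂ] CN N)) {J : Type*} [Fintype J] (y : J → Y)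
    (h : (pickForm k ℓ (fun q : J × Fin N => (y q.1, ee q.2, U (y q.1) (ee q.2)))).PosSemidef)
    (c : J → CN N) : (pickForm k ℓ (fun j => (y j, c j, U (y j) (c j)))).PosSemidef := by
  rw [psd_iff_sum] at h ⊢
  refine ⟨pickForm_isHermitian hk hℓ _, fun x => ?_⟩
  have h1 := h.2 (fun q => x q.1 * c q.1 q.2)
  have e : (∑ i, ∑ j, star (x i) * pickForm k ℓ (fun j => (y j, c j, U (y j) (c j))) i j * x j)
      = ∑ p : J × Fin N, ∑ q : J × Fin N, star (x p.1 * c p.1 p.2)
        * pickForm k ℓ (fun q : J × Fin N => (y q.1, ee q.2, U (y q.1) (ee q.2))) p q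
        * (x q.1 * c q.1 q.2) := by
    rw [Fintype.sum_prod_type]
    refine Finset.sum_congr rfl fun i _ => ?_
    have e1 : ∀ a : Fin N, (∑ q : J × Fin N, star (x i * c i a)
        * pickForm k ℓ (fun q : J × Fin N => (y q.1, ee q.2, U (y q.1) (ee q.2))) (i, a) q
        * (x q.1 * c q.1 q.2)) = ∑ j, ∑ b, star (x i * c i a)
        * pickForm k ℓ (fun q : J × Fin N => (y q.1, ee q.2, U (y q.1) (ee q.2))) (i, a) (j, b)
        * (x j * c j b) := fun a => Fintype.sum_prod_type _
    simp_rw [e1]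
    rw [Finset.sum_comm]
    refine Finset.sum_congr rfl fun j _ => ?_
    have e2 : ⟪c i, c j⟫_ℂ = ∑ a, ∑ b, star (c i a) * ⟪(ee a : CN N), ee b⟫_ℂ * c j b := by
      conv_lhs => rw [sum_ee (c i), sum_ee (c j)]
      rw [sum_inner]
      refine Finset.sum_congr rfl fun a _ => ?_
      rw [inner_sum]
      refine Finset.sum_congr rfl fun b _ => ?_
      rw [inner_smul_left, inner_smul_right, Complex.star_def]
      ring
    have e3 : ⟪U (y i) (c i), U (y j) (c j)⟫_ℂ
        = ∑ a, ∑ b, star (c i a) * ⟪U (y i) (ee a), U (y j) (ee b)⟫_ℂ * c j b := by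
      conv_lhs => rw [sum_ee (c i), sum_ee (c j)]
      rw [map_sum, map_sum, sum_inner]
      refine Finset.sum_congr rfl fun a _ => ?_
      rw [inner_sum]
      refine Finset.sum_congr rfl fun b _ => ?_
      rw [map_smul, map_smul, inner_smul_left, inner_smul_right, Complex.star_def]
      ring
    rw [pickForm_apply]
    simp only
    rw [e2, e3]
    simp only [Finset.mul_sum, Finset.sum_mul, mul_sub, sub_mul]
    rw [← Finset.sum_sub_distrib]
    refine Finset.sum_congr rfl fun a _ => ?_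
    rw [← Finset.sum_sub_distrib]
    refine Finset.sum_congr rfl fun b _ => ?_
    rw [pickForm_apply, star_mul']
    ring
  rw [e]
  exact h1

/-- On a finite set with certificates, interpolation problems are solvable. -/
lemma extend_all [Fintype Y] [DecidableEq Y] {k ℓ : Matrix Y Y ℂ} (hk : k.PosSemidef)
    (hℓ : ℓ.PosSemidef) (hke : ∀ y, k y y ≠ 0) (hne : ∀ y, ℓ y y ≠ 0)
    (hc : ∀ w, CertAt k ℓ (zker k w) (zker ℓ w)) {N : ℕ} {I : Type} [Fintype I]
    (d : I → Y × CN N × CN N) (hd : (pickForm k ℓ d).PosSemidef) :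
    ∃ U : Y → (CN N →ₗ[ℂ] CN N), (∀ i, U (d i).1 (d i).2.1 = (d i).2.2) ∧
      ∀ (J : Type) [Fintype J] (y : J → Y) (c : J → CN N),
        (pickForm k ℓ (fun j => (y j, c j, U (y j) (c j)))).PosSemidef := by
  obtain ⟨U, hU⟩ := tangential hk hℓ Finset.univ (fun w _ => ⟨hne w, hc w⟩) d hd
  refine ⟨U, ?_, ?_⟩
  · intro i
    have h3 := hU.submatrix (Sum.elim (fun _ : Unit => Sum.inl i)
      (fun b : Fin N => Sum.inr (⟨(d i).1, Finset.mem_univ _⟩, b)) :
        Unit ⊕ Fin N → I ⊕ (↥(Finset.univ : Finset Y) × Fin N))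
    have e : (pickForm k ℓ (Sum.elim d (fun q : ↥(Finset.univ : Finset Y) × Fin N =>
            (q.1.1, ee q.2, U q.1.1 (ee q.2))))).submatrix
            (Sum.elim (fun _ : Unit => Sum.inl i)
              (fun b : Fin N => Sum.inr (⟨(d i).1, Finset.mem_univ _⟩, b)) :
              Unit ⊕ Fin N → I ⊕ (↥(Finset.univ : Finset Y) × Fin N))
            (Sum.elim (fun _ : Unit => Sum.inl i)
              (fun b : Fin N => Sum.inr (⟨(d i).1, Finset.mem_univ _⟩, b)))
        = pickForm k ℓ (fun j : Unit ⊕ Fin N => ((d i).1, Sum.elim (fun _ => (d i).2.1) ee j,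
            Sum.elim (fun _ => (d i).2.2) (fun b => U (d i).1 (ee b)) j)) := by
      ext p q
      rcases p with p | p <;> rcases q with q | q <;> rfl
    rw [e] at h3
    have h4 := same_point_compat hk (hke _) _ _ h3
      (Sum.elim (fun _ => (1 : ℂ)) (fun b => - ((d i).2.1) b)) ?_
    · simp only [Fintype.sum_sum_type, Finset.univ_unique, Finset.sum_singleton, Sum.elim_inl,
        Sum.elim_inr, one_smul, neg_smul, Finset.sum_neg_distrib] at h4
      have h5 : ∑ b, ((d i).2.1) b • U (d i).1 (ee b) = U (d i).1 ((d i).2.1) := by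
        conv_rhs => rw [sum_ee ((d i).2.1)]
        rw [map_sum]
        refine Finset.sum_congr rfl fun b _ => ?_
        rw [map_smul]
      rw [h5] at h4
      exact (add_neg_eq_zero.mp h4).symm
    · simp only [Fintype.sum_sum_type, Finset.univ_unique, Finset.sum_singleton, Sum.elim_inl,
        Sum.elim_inr, one_smul, neg_smul, Finset.sum_neg_distrib]
      rw [← sum_ee ((d i).2.1), add_neg_cancel]
  · intro J _ y c
    refine psd_of_basis hk hℓ U y ?_ c
    have h := hU.submatrix (fun q : J × Fin N =>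
      (Sum.inr (⟨y q.1, Finset.mem_univ _⟩, q.2) : I ⊕ (↥(Finset.univ : Finset Y) × Fin N)))
    have e : pickForm k ℓ (fun q : J × Fin N => (y q.1, ee q.2, U (y q.1) (ee q.2)))
        = (pickForm k ℓ (Sum.elim d (fun q : ↥(Finset.univ : Finset Y) × Fin N =>
            (q.1.1, ee q.2, U q.1.1 (ee q.2))))).submatrix
          (fun q : J × Fin N => (Sum.inr (⟨y q.1, Finset.mem_univ _⟩, q.2) :
            I ⊕ (↥(Finset.univ : Finset Y) × Fin N)))
          (fun q : J × Fin N => (Sum.inr (⟨y q.1, Finset.mem_univ _⟩, q.2) :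
            I ⊕ (↥(Finset.univ : Finset Y) × Fin N))) := by
      ext p q
      simp only [pickForm_apply, Matrix.submatrix_apply, Sum.elim_inr]
    rw [e]
    exact h

end general

/-- The first kernel of the degenerate example. -/
def exK : Matrix (Fin 3) (Fin 3) ℂ := !![1, 0, 1; 0, 1, 1; 1, 1, 2]

/-- The second kernel of the degenerate example. -/
def exL : Matrix (Fin 3) (Fin 3) ℂ := !![0, 0, 0; 0, 1, 1; 0, 1, 2]

lemma exK_psd : exK.PosSemidef := by
  have e : exK = (!![1, 0; 0, 1; 1, 1] : Matrix (Fin 3) (Fin 2) ℂ)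
      * (!![1, 0; 0, 1; 1, 1] : Matrix (Fin 3) (Fin 2) ℂ)ᴴ := by
    ext i j
    fin_cases i <;> fin_cases j <;> simp [exK, Matrix.mul_apply, Fin.sum_univ_two] <;> norm_num
  rw [e]
  exact Matrix.posSemidef_self_mul_conjTranspose _

lemma exL_psd : exL.PosSemidef := by
  have e : exL = (!![0, 0; 0, 1; 1, 1] : Matrix (Fin 3) (Fin 2) ℂ)
      * (!![0, 0; 0, 1; 1, 1] : Matrix (Fin 3) (Fin 2) ℂ)ᴴ := by
    ext i j
    fin_cases i <;> fin_cases j <;> simp [exL, Matrix.mul_apply, Fin.sum_univ_two] <;> norm_num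
  rw [e]
  exact Matrix.posSemidef_self_mul_conjTranspose _

instance instFactExK : Fact exK.PosSemidef := ⟨exK_psd⟩
instance instFactExL : Fact exL.PosSemidef := ⟨exL_psd⟩

lemma exL_zero (x y : Fin 3) (h : x = 0 ∨ y = 0) : exL x y = 0 := by
  fin_cases x <;> fin_cases y <;> simp [exL] at h ⊢

/-- The points where `ℓ` does not vanish. -/
abbrev Y2 : Type := {x : Fin 3 // x ≠ 0}

lemma Y2_cases (x : Y2) : x = ⟨1, by decide⟩ ∨ x = ⟨2, by decide⟩ := by
  obtain ⟨x, hx⟩ := x
  fin_cases x
  · exact absurd rfl hx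
  · left; rfl
  · right; rfl

/-- The restriction of the example to the two points where `ℓ` does not vanish. -/
def exK2 : Matrix Y2 Y2 ℂ := exK.submatrix Subtype.val Subtype.val

/-- The restriction of the example to the two points where `ℓ` does not vanish. -/
def exL2 : Matrix Y2 Y2 ℂ := exL.submatrix Subtype.val Subtype.val

lemma exL2_eq : exL2 = exK2 := by
  ext x y
  rcases Y2_cases x with rfl | rfl <;> rcases Y2_cases y with rfl | rfl <;>
    simp [exL2, exK2, exL, exK]

lemma exK2_diag (x : Y2) : exK2 x x ≠ 0 := by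
  rcases Y2_cases x with rfl | rfl <;> simp [exK2, exK]

lemma exK2_psd : exK2.PosSemidef := exK_psd.submatrix _

lemma single_psd (w : Y2) (c : ℝ) (hc : 0 ≤ c) :
    (Matrix.diagonal (fun x : Y2 => if x = w then (0 : ℂ) else (c : ℂ))).PosSemidef := by
  apply Matrix.PosSemidef.diagonal
  intro x
  by_cases h : x = w
  · simp [h]
  · simp [h, hc]

lemma exCert (w : Y2) : CertAt exK2 exK2 (zker exK2 w) (zker exK2 w) := by
  rcases Y2_cases w with rfl | rfl
  · refine ⟨_, single_psd ⟨1, by decide⟩ (1 / 2) (by norm_num), ?_, ?_⟩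
    · have e : zker exK2 ⟨1, by decide⟩ - Matrix.diagonal (fun x : Y2 =>
          if x = ⟨1, by decide⟩ then (0 : ℂ) else (((1 / 2 : ℝ)) : ℂ)) ⊙ exK2 = 0 := by
        ext x y
        rcases Y2_cases x with rfl | rfl <;> rcases Y2_cases y with rfl | rfl <;>
          simp [zker, exK2, exK, Matrix.diagonal] <;> norm_num
      rw [e]
      exact Matrix.PosSemidef.zero
    · have e : Matrix.diagonal (fun x : Y2 =>
          if x = ⟨1, by decide⟩ then (0 : ℂ) else (((1 / 2 : ℝ)) : ℂ)) ⊙ exK2
            - zker exK2 ⟨1, by decide⟩ = 0 := by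
        ext x y
        rcases Y2_cases x with rfl | rfl <;> rcases Y2_cases y with rfl | rfl <;>
          simp [zker, exK2, exK, Matrix.diagonal] <;> norm_num
      rw [e]
      exact Matrix.PosSemidef.zero
  · refine ⟨_, single_psd ⟨2, by decide⟩ (1 / 2) (by norm_num), ?_, ?_⟩
    · have e : zker exK2 ⟨2, by decide⟩ - Matrix.diagonal (fun x : Y2 =>
          if x = ⟨2, by decide⟩ then (0 : ℂ) else (((1 / 2 : ℝ)) : ℂ)) ⊙ exK2 = 0 := by
        ext x y
        rcases Y2_cases x with rfl | rfl <;> rcases Y2_cases y with rfl | rfl <;>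
          simp [zker, exK2, exK, Matrix.diagonal] <;> norm_num
      rw [e]
      exact Matrix.PosSemidef.zero
    · have e : Matrix.diagonal (fun x : Y2 =>
          if x = ⟨2, by decide⟩ then (0 : ℂ) else (((1 / 2 : ℝ)) : ℂ)) ⊙ exK2
            - zker exK2 ⟨2, by decide⟩ = 0 := by
        ext x y
        rcases Y2_cases x with rfl | rfl <;> rcases Y2_cases y with rfl | rfl <;>
          simp [zker, exK2, exK, Matrix.diagonal] <;> norm_num
      rw [e]
      exact Matrix.PosSemidef.zero

/-- The degenerate pair is a complete Pick pair. -/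
theorem ex_pickProperty {n N : ℕ} (z : Fin n → Fin 3) (W : Fin n → Matrix (Fin N) (Fin N) ℂ) :
    PickProperty exK exL z W := by
  classical
  intro hP
  -- the Pick matrix as a form
  have e1 : pickMatrix exK exL z W = pickForm exK exL (fun q : Fin n × Fin N =>
      (z q.1, ee q.2, Matrix.toEuclideanLin (W q.1)ᴴ (ee q.2))) := by
    ext p q
    rw [pickForm_apply, inner_ee, inner_ee_ee]
    rfl
  rw [e1] at hP
  -- values at the degenerate point vanish
  have hzero : ∀ i, z i = 0 → W i = 0 := by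
    intro i hi
    have h0 : ∀ a, Matrix.toEuclideanLin (W i)ᴴ (ee a) = 0 := by
      intro a
      have h1 := (Complex.nonneg_iff.mp (hP.diag_nonneg (i := (i, a)))).1
      rw [pickForm_apply] at h1
      simp only [hi] at h1
      have h2 : exL 0 0 = 0 := exL_zero 0 0 (Or.inl rfl)
      have h3 : exK 0 0 = 1 := by simp [exK]
      rw [h2, h3, zero_mul, zero_sub, one_mul] at h1
      have h4 : ⟪Matrix.toEuclideanLin (W i)ᴴ (ee a), Matrix.toEuclideanLin (W i)ᴴ (ee a)⟫_ℂ
          = ((‖Matrix.toEuclideanLin (W i)ᴴ (ee a)‖ ^ 2 : ℝ) : ℂ) := by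
        rw [inner_self_eq_norm_sq_to_K]
        simp
      rw [h4, Complex.neg_re, Complex.ofReal_re] at h1
      have h5 := sq_nonneg ‖Matrix.toEuclideanLin (W i)ᴴ (ee a)‖
      have h6 : ‖Matrix.toEuclideanLin (W i)ᴴ (ee a)‖ ^ 2 = 0 := by linarith
      exact norm_eq_zero.mp (pow_eq_zero_iff two_ne_zero |>.mp h6)
    have h1 : Matrix.toEuclideanLin (W i)ᴴ = 0 := by
      refine LinearMap.ext fun v => ?_
      rw [sum_ee v, map_sum]
      simp only [map_smul, h0, smul_zero, Finset.sum_const_zero]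
      rfl
    have h2 : (W i)ᴴ = 0 := by
      apply Matrix.toEuclideanLin.injective
      rw [h1, map_zero]
    rw [← Matrix.conjTranspose_conjTranspose (W i), h2, Matrix.conjTranspose_zero]
  -- the data away from the degenerate point
  let I : Type := {q : Fin n × Fin N // z q.1 ≠ 0}
  let d : I → Y2 × CN N × CN N := fun q =>
    (⟨z q.1.1, q.2⟩, ee q.1.2, Matrix.toEuclideanLin (W q.1.1)ᴴ (ee q.1.2))
  have hd : (pickForm exK2 exL2 d).PosSemidef := by
    have := hP.submatrix (Subtype.val : I → Fin n × Fin N)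
    exact this
  rw [exL2_eq] at hd
  obtain ⟨U, hU1, hU2⟩ := extend_all exK2_psd exK2_psd exK2_diag exK2_diag exCert d hd
  let Φ : Fin 3 → Matrix (Fin N) (Fin N) ℂ := fun x =>
    if h : x ≠ 0 then (Matrix.toEuclideanLin.symm (U ⟨x, h⟩))ᴴ else 0
  have hΦ0 : Φ 0 = 0 := by simp [Φ]
  have hΦ1 : ∀ x (h : x ≠ 0), Matrix.toEuclideanLin (Φ x)ᴴ = U ⟨x, h⟩ := by
    intro x h
    simp only [Φ]
    rw [dif_pos h, Matrix.conjTranspose_conjTranspose, LinearEquiv.apply_symm_apply]
  refine ⟨Φ, ?_, ?_⟩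
  · apply multiplier_of_psd
    intro J _ y c
    refine psd_of_support_fin (fun j => y j ≠ 0) ?_ ?_ ?_
    · intro i j hi
      have hi' : y i = 0 := not_not.mp hi
      rw [pickForm_apply]
      simp only [hi', hΦ0]
      rw [exL_zero 0 _ (Or.inl rfl)]
      simp
    · intro i j hj
      have hj' : y j = 0 := not_not.mp hj
      rw [pickForm_apply]
      simp only [hj', hΦ0]
      rw [exL_zero _ 0 (Or.inr rfl)]
      simp
    · have h := hU2 {j // y j ≠ 0} (fun j => ⟨y j.1, j.2⟩) (fun j => c j.1)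
      have e : (pickForm exK exL (fun j => (y j, c j,
          Matrix.toEuclideanLin (Φ (y j))ᴴ (c j)))).submatrix
          (Subtype.val : {j // y j ≠ 0} → J) Subtype.val
          = pickForm exK2 exL2 (fun j : {j // y j ≠ 0} => ((⟨y j.1, j.2⟩ : Y2), c j.1,
              U ⟨y j.1, j.2⟩ (c j.1))) := by
        ext i j
        rw [Matrix.submatrix_apply, pickForm_apply, pickForm_apply]
        simp only
        rw [hΦ1 _ i.2, hΦ1 _ j.2]
        rfl
      rw [e, exL2_eq]
      exact h
  · intro i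
    by_cases hi : z i = 0
    · rw [hi, hΦ0, hzero i hi]
    · have h1 : Matrix.toEuclideanLin (Φ (z i))ᴴ = Matrix.toEuclideanLin (W i)ᴴ := by
        rw [hΦ1 _ hi]
        refine LinearMap.ext fun v => ?_
        rw [sum_ee v, map_sum, map_sum]
        refine Finset.sum_congr rfl fun a _ => ?_
        rw [map_smul, map_smul]
        congr 1
        exact hU1 ⟨(i, a), hi⟩
      have h2 := Matrix.toEuclideanLin.injective h1
      rw [← Matrix.conjTranspose_conjTranspose (Φ (z i)), h2, Matrix.conjTranspose_conjTranspose]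

/-- The degenerate pair has no Shimorin certificate. -/
theorem ex_no_certificate : ¬ HasShimorinCertificate exK exL := by
  rintro ⟨p, hp⟩
  obtain ⟨-, h1, h2⟩ := hp 2
  have a1 := (Complex.nonneg_iff.mp (h1.diag_nonneg (i := 1))).1
  have a2 := h2.diag_nonneg (i := 1)
  have a2' := (Complex.nonneg_iff.mp a2)
  have a3 : (p 2 ⊙ exK - zker exK 2) 1 1 = 0 := by
    apply Complex.ext
    · simp only [zker, Matrix.sub_apply, Matrix.hadamard_apply, Matrix.of_apply] at a1 a2' ⊢
      simp [exK, exL] at a1 a2' ⊢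
      obtain ⟨a2', -⟩ := a2'
      norm_num at a1 a2' ⊢
      linarith
    · exact a2'.2.symm
  have a4 := psd_zero_col h2 a3 0
  simp [exK, zker] at a4

end Pool.Agent.Lib.PickPairs

end
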