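import Pool.Agent.Lib.MP_e3a8c8_an.PSD

/-!
Extension of contractions (a finite form of Douglas' lemma), in terms of Gram matrices.
-/

set_option autoImplicit false

noncomputable section

namespace Pool.Agent.Lib.PickPairs

open scoped ComplexOrder Matrix InnerProductSpace

universe u

variable {E V : Type*} [NormedAddCommGroup E] [InnerProductSpace ℂ E]
  [NormedAddCommGroup V] [InnerProductSpace ℂ V]

lemma gram_form {I : Type*} [Fintype I] (h : I → E) (a : I → ℂ) :
    ∑ i, ∑ j, star (a i) * Matrix.gram ℂ h i j * a j = ⟪∑ i, a i • h i, ∑ i, a i • h i⟫_ℂ := by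
  simp_rw [sum_inner, inner_sum, inner_smul_left, inner_smul_right, Matrix.gram_apply]
  refine Finset.sum_congr rfl fun i _ => Finset.sum_congr rfl fun j _ => ?_
  simp only [RCLike.star_def]
  ring

lemma gram_form_re {I : Type*} [Fintype I] (h : I → E) (a : I → ℂ) :
    (∑ i, ∑ j, star (a i) * Matrix.gram ℂ h i j * a j).re = ‖∑ i, a i • h i‖ ^ 2 := by
  rw [gram_form]
  exact inner_self_eq_norm_sq (𝕜 := ℂ) _

lemma gram_isHermitian {I : Type*} (h : I → E) : (Matrix.gram ℂ h).IsHermitian :=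
  Matrix.isHermitian_gram ℂ h

/-- If `Y` is a contraction, then `gram h - gram (Y h)` is positive semidefinite. -/
lemma psd_gram_sub {I : Type u} [Fintype I] (h : I → E) (r : I → V)
    (hle : ∀ a : I → ℂ, ‖∑ i, a i • r i‖ ≤ ‖∑ i, a i • h i‖) :
    (Matrix.gram ℂ h - Matrix.gram ℂ r).PosSemidef := by
  rw [psd_iff_sum]
  refine ⟨(gram_isHermitian h).sub (gram_isHermitian r), fun a => ?_⟩
  have h1 : (∑ i, ∑ j, star (a i) * (Matrix.gram ℂ h - Matrix.gram ℂ r) i j * a j)
      = (∑ i, ∑ j, star (a i) * Matrix.gram ℂ h i j * a j)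
        - ∑ i, ∑ j, star (a i) * Matrix.gram ℂ r i j * a j := by
    rw [← Finset.sum_sub_distrib]
    refine Finset.sum_congr rfl fun i _ => ?_
    rw [← Finset.sum_sub_distrib]
    refine Finset.sum_congr rfl fun j _ => ?_
    rw [Matrix.sub_apply]
    ring
  rw [h1, Complex.sub_re, gram_form_re, gram_form_re]
  have := pow_le_pow_left₀ (norm_nonneg _) (hle a) 2
  linarith

lemma norm_le_of_psd {I : Type u} [Fintype I] {h : I → E} {r : I → V}
    (hp : (Matrix.gram ℂ h - Matrix.gram ℂ r).PosSemidef) (a : I → ℂ) :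
    ‖∑ i, a i • r i‖ ≤ ‖∑ i, a i • h i‖ := by
  have h0 := (psd_iff_sum.mp hp).2 a
  have h1 : (∑ i, ∑ j, star (a i) * (Matrix.gram ℂ h - Matrix.gram ℂ r) i j * a j)
      = (∑ i, ∑ j, star (a i) * Matrix.gram ℂ h i j * a j)
        - ∑ i, ∑ j, star (a i) * Matrix.gram ℂ r i j * a j := by
    rw [← Finset.sum_sub_distrib]
    refine Finset.sum_congr rfl fun i _ => ?_
    rw [← Finset.sum_sub_distrib]
    refine Finset.sum_congr rfl fun j _ => ?_
    rw [Matrix.sub_apply]
    ring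
  rw [h1, Complex.sub_re, gram_form_re, gram_form_re] at h0
  exact le_of_sq_le_sq (by linarith) (norm_nonneg _)

/-- Finite form of Douglas' lemma. -/
lemma exists_contraction {I : Type u} [Fintype I] (h : I → E) (r : I → V)
    (hp : (Matrix.gram ℂ h - Matrix.gram ℂ r).PosSemidef) :
    ∃ Y : E →L[ℂ] V, (∀ x, ‖Y x‖ ≤ ‖x‖) ∧ ∀ i, Y (h i) = r i := by
  classical
  let L : (I → ℂ) →ₗ[ℂ] E := Fintype.linearCombination ℂ h
  let R : (I → ℂ) →ₗ[ℂ] V := Fintype.linearCombination ℂ r
  have hL : ∀ a, L a = ∑ i, a i • h i := fun a => Fintype.linearCombination_apply ℂ h a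
  have hR : ∀ a, R a = ∑ i, a i • r i := fun a => Fintype.linearCombination_apply ℂ r a
  have hle : ∀ a, ‖R a‖ ≤ ‖L a‖ := by
    intro a
    rw [hL, hR]
    exact norm_le_of_psd hp a
  let S : Submodule ℂ E := LinearMap.range L
  have : FiniteDimensional ℂ S := inferInstance
  obtain ⟨σ, hσ⟩ := LinearMap.exists_rightInverse_of_surjective L.rangeRestrict
    (LinearMap.range_rangeRestrict L)
  have hσ' : ∀ y : S, L (σ y) = y := by
    intro y
    have := congrArg (fun f => (f y : S)) hσ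
    simp only [LinearMap.comp_apply, LinearMap.id_apply] at this
    exact congrArg Subtype.val this
  let Y₀ : S →ₗ[ℂ] V := R ∘ₗ σ
  have hY₀ : ∀ y : S, ‖Y₀ y‖ ≤ ‖y‖ := by
    intro y
    calc ‖R (σ y)‖ ≤ ‖L (σ y)‖ := hle _
      _ = ‖y‖ := by rw [hσ']; rfl
  let Y₁ : S →L[ℂ] V := LinearMap.toContinuousLinearMap Y₀
  refine ⟨Y₁ ∘L S.orthogonalProjectionOnto, fun x => ?_, fun i => ?_⟩
  · calc ‖Y₁ (S.orthogonalProjectionOnto x)‖ ≤ ‖S.orthogonalProjectionOnto x‖ := hY₀ _
      _ ≤ ‖x‖ := by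
        have := S.orthogonalProjectionOnto_norm_le
        calc ‖S.orthogonalProjectionOnto x‖ ≤ ‖S.orthogonalProjectionOnto‖ * ‖x‖ :=
              ContinuousLinearMap.le_opNorm _ _
          _ ≤ 1 * ‖x‖ := by gcongr
          _ = ‖x‖ := one_mul _
  · have h1 : L (Pi.single i 1) = h i := by
      rw [hL]
      simp [Pi.single_apply]
    have h2 : R (Pi.single i 1) = r i := by
      rw [hR]
      simp [Pi.single_apply]
    have hmem : h i ∈ S := ⟨Pi.single i 1, h1⟩
    have h3 : S.orthogonalProjectionOnto (h i) = ⟨h i, hmem⟩ :=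
      Submodule.orthogonalProjectionOnto_mem_subspace_eq_self (K := S) ⟨h i, hmem⟩
    change Y₀ (S.orthogonalProjectionOnto (h i)) = r i
    rw [h3]
    change R (σ ⟨h i, hmem⟩) = r i
    rw [← h2, ← sub_eq_zero, ← map_sub, ← norm_eq_zero]
    apply le_antisymm _ (norm_nonneg _)
    refine (hle _).trans ?_
    rw [map_sub, hσ', h1]
    simp

end Pool.Agent.Lib.PickPairs

end
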