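import Pool.Agent.Lib.MP_e3a8c8_an.PSD

/-!
Duality for the local certificate on a finite set.
-/

set_option autoImplicit false

noncomputable section

namespace Pool.Agent.Lib.PickPairs

open scoped ComplexOrder Matrix InnerProductSpace
open Filter Topology

variable {ι : Type*} [Fintype ι]

lemma isClosed_psd : IsClosed {M : ι → ι → ℂ | (Matrix.of M).PosSemidef} := by
  have h : {M : ι → ι → ℂ | (Matrix.of M).PosSemidef}
      = {M : ι → ι → ℂ | ∀ i j, star (M j i) = M i j} ∩
        {M : ι → ι → ℂ | ∀ x : ι → ℂ, 0 ≤ (∑ i, ∑ j, star (x i) * M i j * x j).re} := by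
    ext M
    simp only [Set.mem_ofPred_eq, Set.mem_inter_iff]
    rw [psd_iff_sum]
    refine and_congr ?_ Iff.rfl
    constructor
    · intro h i j
      exact h.apply i j
    · intro h
      exact Matrix.IsHermitian.ext fun i j => h i j
  rw [h]
  apply IsClosed.inter
  · simp only [Set.ofPred_forall]
    refine isClosed_iInter fun i => isClosed_iInter fun j => ?_
    exact isClosed_eq (by fun_prop) (by fun_prop)
  · simp only [Set.ofPred_forall]
    refine isClosed_iInter fun x => ?_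
    exact isClosed_le continuous_const (by fun_prop)

lemma psd_entry_le {X : Type*} {p : Matrix X X ℂ} (hp : p.PosSemidef) {C : ℝ}
    (i j : X) (hi : (p i i).re ≤ C) (hj : (p j j).re ≤ C) : ‖p i j‖ ≤ C := by
  obtain ⟨ξ, hξ⟩ := exists_gram (hp.submatrix ![i, j])
  have e00 : p i i = ⟪ξ 0, ξ 0⟫_ℂ := congrFun (congrFun hξ 0) 0
  have e11 : p j j = ⟪ξ 1, ξ 1⟫_ℂ := congrFun (congrFun hξ 1) 1
  have e01 : p i j = ⟪ξ 0, ξ 1⟫_ℂ := congrFun (congrFun hξ 0) 1
  have h0 : ‖ξ 0‖ ^ 2 ≤ C := by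
    have : (⟪ξ 0, ξ 0⟫_ℂ).re = ‖ξ 0‖ ^ 2 := inner_self_eq_norm_sq (𝕜 := ℂ) (ξ 0)
    rw [← this, ← e00]
    exact hi
  have h1 : ‖ξ 1‖ ^ 2 ≤ C := by
    have : (⟪ξ 1, ξ 1⟫_ℂ).re = ‖ξ 1‖ ^ 2 := inner_self_eq_norm_sq (𝕜 := ℂ) (ξ 1)
    rw [← this, ← e11]
    exact hj
  rw [e01]
  have h2 := norm_inner_le_norm (𝕜 := ℂ) (ξ 0) (ξ 1)
  nlinarith [sq_nonneg (‖ξ 0‖ - ‖ξ 1‖), norm_nonneg (ξ 0), norm_nonneg (ξ 1)]

/-- The cone of the duality argument. -/
def dualCone (L K : Matrix ι ι ℂ) : Set ((ι → ι → ℂ) × (ι → ι → ℂ)) :=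
  {q | ∃ p : Matrix ι ι ℂ, p.PosSemidef ∧ (Matrix.of q.1 - p ⊙ L).PosSemidef ∧
    (Matrix.of q.2 + p ⊙ K).PosSemidef}

omit [Fintype ι] in
lemma dualCone_convex (L K : Matrix ι ι ℂ) : Convex ℝ (dualCone L K) := by
  intro q hq q' hq' a b ha hb _
  obtain ⟨p, hp, h1, h2⟩ := hq
  obtain ⟨p', hp', h1', h2'⟩ := hq'
  have ha' : (0 : ℂ) ≤ (a : ℂ) := by exact_mod_cast ha
  have hb' : (0 : ℂ) ≤ (b : ℂ) := by exact_mod_cast hb
  refine ⟨(a : ℂ) • p + (b : ℂ) • p', (hp.smul ha').add (hp'.smul hb'), ?_, ?_⟩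
  · have e : Matrix.of (a • q + b • q').1 - ((a : ℂ) • p + (b : ℂ) • p') ⊙ L
        = (a : ℂ) • (Matrix.of q.1 - p ⊙ L) + (b : ℂ) • (Matrix.of q'.1 - p' ⊙ L) := by
      ext i j
      simp only [Matrix.sub_apply, Matrix.add_apply, Matrix.smul_apply, Matrix.hadamard_apply,
        Matrix.of_apply, Prod.fst_add, Prod.smul_fst, Pi.add_apply, Pi.smul_apply,
        smul_eq_mul, Complex.real_smul]
      ring
    rw [e]
    exact (h1.smul ha').add (h1'.smul hb')
  · have e : Matrix.of (a • q + b • q').2 + ((a : ℂ) • p + (b : ℂ) • p') ⊙ K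
        = (a : ℂ) • (Matrix.of q.2 + p ⊙ K) + (b : ℂ) • (Matrix.of q'.2 + p' ⊙ K) := by
      ext i j
      simp only [Matrix.add_apply, Matrix.smul_apply, Matrix.hadamard_apply,
        Matrix.of_apply, Prod.snd_add, Prod.smul_snd, Pi.add_apply, Pi.smul_apply,
        smul_eq_mul, Complex.real_smul]
      ring
    rw [e]
    exact (h2.smul ha').add (h2'.smul hb')

omit [Fintype ι] in
lemma dualCone_smul {L K : Matrix ι ι ℂ} {q : (ι → ι → ℂ) × (ι → ι → ℂ)}
    (hq : q ∈ dualCone L K) {a : ℝ} (ha : 0 ≤ a) : a • q ∈ dualCone L K := by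
  obtain ⟨p, hp, h1, h2⟩ := hq
  have ha' : (0 : ℂ) ≤ (a : ℂ) := by exact_mod_cast ha
  refine ⟨(a : ℂ) • p, hp.smul ha', ?_, ?_⟩
  · have e : Matrix.of (a • q).1 - ((a : ℂ) • p) ⊙ L = (a : ℂ) • (Matrix.of q.1 - p ⊙ L) := by
      ext i j
      simp only [Matrix.sub_apply, Matrix.smul_apply, Matrix.hadamard_apply,
        Matrix.of_apply, Prod.smul_fst, Pi.smul_apply, smul_eq_mul, Complex.real_smul]
      ring
    rw [e]
    exact h1.smul ha'
  · have e : Matrix.of (a • q).2 + ((a : ℂ) • p) ⊙ K = (a : ℂ) • (Matrix.of q.2 + p ⊙ K) := by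
      ext i j
      simp only [Matrix.add_apply, Matrix.smul_apply, Matrix.hadamard_apply,
        Matrix.of_apply, Prod.smul_snd, Pi.smul_apply, smul_eq_mul, Complex.real_smul]
      ring
    rw [e]
    exact h2.smul ha'

lemma dualCone_isClosed (L K : Matrix ι ι ℂ) (hL : ∀ i, 0 < (L i i).re)
    (hL' : ∀ i, (L i i).im = 0) : IsClosed (dualCone L K) := by
  apply IsSeqClosed.isClosed
  intro q q₀ hq hlim
  choose p hp h1 h2 using hq
  have hlim1 : Tendsto (fun n => (q n).1) atTop (𝓝 q₀.1) :=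
    (continuous_fst.tendsto _).comp hlim
  have hlim2 : Tendsto (fun n => (q n).2) atTop (𝓝 q₀.2) :=
    (continuous_snd.tendsto _).comp hlim
  -- bounds
  obtain ⟨C, hC⟩ := hlim1.cauchySeq.isBounded_range.exists_norm_le
  have hCn : ∀ n i, ‖(q n).1 i i‖ ≤ C := by
    intro n i
    have h3 : ‖(q n).1‖ ≤ C := hC _ ⟨n, rfl⟩
    exact ((norm_le_pi_norm _ i).trans (norm_le_pi_norm _ i)).trans h3
  have hC0 : 0 ≤ C := (norm_nonneg _).trans (hC _ ⟨0, rfl⟩)
  have hdiag : ∀ n i, ((p n) i i).re * (L i i).re ≤ C := by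
    intro n i
    have h3 : 0 ≤ (Matrix.of (q n).1 - p n ⊙ L) i i := (h1 n).diag_nonneg
    have h4 := (Complex.nonneg_iff.mp h3).1
    simp only [Matrix.sub_apply, Matrix.of_apply, Matrix.hadamard_apply, Complex.sub_re,
      Complex.mul_re, hL' i, mul_zero, sub_zero] at h4
    have h5 : ((q n).1 i i).re ≤ C := (Complex.re_le_norm _).trans (hCn n i)
    linarith
  let B : ℝ := ∑ i, C / (L i i).re
  have hB : ∀ n i, ((p n) i i).re ≤ B := by
    intro n i
    have h3 : ((p n) i i).re ≤ C / (L i i).re := by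
      rw [le_div_iff₀ (hL i)]
      exact hdiag n i
    refine h3.trans ?_
    exact Finset.single_le_sum (f := fun i => C / (L i i).re)
      (fun j _ => div_nonneg hC0 (hL j).le) (Finset.mem_univ i)
  have hB' : ∀ n i j, ‖(p n) i j‖ ≤ B := fun n i j => psd_entry_le (hp n) i j (hB n i) (hB n j)
  have hbdd : ∀ n, (fun i j => (p n) i j : ι → ι → ℂ) ∈
      Metric.closedBall (0 : ι → ι → ℂ) |B| := by
    intro n
    rw [mem_closedBall_zero_iff]
    refine (pi_norm_le_iff_of_nonneg (abs_nonneg _)).mpr fun i => ?_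
    refine (pi_norm_le_iff_of_nonneg (abs_nonneg _)).mpr fun j => ?_
    exact (hB' n i j).trans (le_abs_self _)
  obtain ⟨p₀, _, φ, hφ, hconv⟩ :=
    (isCompact_closedBall (0 : ι → ι → ℂ) |B|).tendsto_subseq hbdd
  have hlim1' := hlim1.comp hφ.tendsto_atTop
  have hlim2' := hlim2.comp hφ.tendsto_atTop
  have hcLp : Continuous (fun r : (ι → ι → ℂ) × (ι → ι → ℂ) =>
      (fun i j => r.1 i j - r.2 i j * L i j : ι → ι → ℂ)) := by fun_prop
  have hcKp : Continuous (fun r : (ι → ι → ℂ) × (ι → ι → ℂ) =>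
      (fun i j => r.1 i j + r.2 i j * K i j : ι → ι → ℂ)) := by fun_prop
  refine ⟨Matrix.of p₀, ?_, ?_, ?_⟩
  · exact isClosed_psd.mem_of_tendsto hconv (Eventually.of_forall fun n => hp (φ n))
  · have h3 := (hcLp.tendsto (q₀.1, p₀)).comp (hlim1'.prodMk_nhds hconv)
    exact isClosed_psd.mem_of_tendsto h3 (Eventually.of_forall fun n => h1 (φ n))
  · have h3 := (hcKp.tendsto (q₀.2, p₀)).comp (hlim2'.prodMk_nhds hconv)
    exact isClosed_psd.mem_of_tendsto h3 (Eventually.of_forall fun n => h2 (φ n))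

/-- A real functional on complex matrices in terms of a complex matrix. -/
lemma functional_repr [DecidableEq ι] (g : (ι → ι → ℂ) →ₗ[ℝ] ℝ) :
    ∃ A : Matrix ι ι ℂ, ∀ M : ι → ι → ℂ, g M = (∑ i, ∑ j, A i j * M i j).re := by
  let E : ι → ι → ℂ → (ι → ι → ℂ) := fun i j c => Pi.single i (Pi.single j c)
  refine ⟨Matrix.of fun i j => (g (E i j 1) : ℂ) - Complex.I * (g (E i j Complex.I) : ℂ),
    fun M => ?_⟩
  have hM : M = ∑ i, ∑ j, ((M i j).re • E i j 1 + (M i j).im • E i j Complex.I) := by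
    funext a b
    simp only [E, Finset.sum_apply, Pi.add_apply, Pi.smul_apply, Complex.real_smul]
    rw [Finset.sum_eq_single a]
    · rw [Finset.sum_eq_single b]
      · simp
      · intro c _ hc
        simp [hc.symm]
      · simp
    · intro c _ hc
      apply Finset.sum_eq_zero
      intro d _
      simp [hc.symm]
    · simp
  conv_lhs => rw [hM]
  rw [map_sum, Complex.re_sum]
  refine Finset.sum_congr rfl fun i _ => ?_
  rw [map_sum, Complex.re_sum]
  refine Finset.sum_congr rfl fun j _ => ?_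
  rw [map_add, map_smul, map_smul]
  simp [Matrix.of_apply, Complex.mul_re]
  ring

lemma hermitian_part {A M : Matrix ι ι ℂ} (hM : M.IsHermitian) :
    (∑ i, ∑ j, ((A i j + star (A j i)) / 2) * M i j).re = (∑ i, ∑ j, A i j * M i j).re := by
  have h1 : (∑ i, ∑ j, star (A j i) * M i j) = star (∑ i, ∑ j, A i j * M i j) := by
    rw [star_sum]
    simp_rw [star_sum, star_mul]
    rw [Finset.sum_comm]
    refine Finset.sum_congr rfl fun i _ => Finset.sum_congr rfl fun j _ => ?_
    rw [hM.apply]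
    ring
  have h2 : (∑ i, ∑ j, ((A i j + star (A j i)) / 2) * M i j)
      = ((∑ i, ∑ j, A i j * M i j) + ∑ i, ∑ j, star (A j i) * M i j) / 2 := by
    rw [← Finset.sum_add_distrib, Finset.sum_div]
    refine Finset.sum_congr rfl fun i _ => ?_
    rw [← Finset.sum_add_distrib, Finset.sum_div]
    refine Finset.sum_congr rfl fun j _ => ?_
    ring
  rw [h2, h1]
  set z := ∑ i, ∑ j, A i j * M i j
  have h3 : star z = (starRingEnd ℂ) z := rfl
  rw [h3, Complex.add_conj]
  simp

/-- Duality: if every pair `A, B ⪰ 0` with `A ∘ L ⪰ B ∘ K` pairs nonnegatively with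
`(L', -K')`, then there is `p ⪰ 0` with `L' ⪰ p ∘ L` and `K' ⪯ p ∘ K`. -/
theorem duality [DecidableEq ι] {L K L' K' : Matrix ι ι ℂ} (hL : L.IsHermitian)
    (hK : K.IsHermitian) (hL' : L'.IsHermitian) (hK' : K'.IsHermitian)
    (hpos : ∀ i, 0 < (L i i).re)
    (hyp : ∀ A B : Matrix ι ι ℂ, A.PosSemidef → B.PosSemidef → (A ⊙ L - B ⊙ K).PosSemidef →
      0 ≤ (∑ i, ∑ j, (A i j * L' i j - B i j * K' i j)).re) :
    ∃ p : Matrix ι ι ℂ, p.PosSemidef ∧ (L' - p ⊙ L).PosSemidef ∧ (p ⊙ K - K').PosSemidef := by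
  have him : ∀ i, (L i i).im = 0 := by
    intro i
    have := hL.apply i i
    exact Complex.conj_eq_iff_im.mp this
  by_cases hmem : ((fun i j => L' i j, fun i j => - K' i j) : (ι → ι → ℂ) × (ι → ι → ℂ))
      ∈ dualCone L K
  · obtain ⟨p, hp, h1, h2⟩ := hmem
    refine ⟨p, hp, h1, ?_⟩
    have e : p ⊙ K - K' = Matrix.of (fun i j => - K' i j) + p ⊙ K := by
      ext i j
      simp only [Matrix.sub_apply, Matrix.add_apply, Matrix.of_apply]
      ring
    rw [e]
    exact h2
  exfalso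
  obtain ⟨f, u, hf1, hf2⟩ := geometric_hahn_banach_closed_point (dualCone_convex L K)
    (dualCone_isClosed L K hpos him) hmem
  have h0 : ((0, 0) : (ι → ι → ℂ) × (ι → ι → ℂ)) ∈ dualCone L K := by
    refine ⟨0, Matrix.PosSemidef.zero, ?_, ?_⟩
    · have e : Matrix.of ((0, 0) : (ι → ι → ℂ) × (ι → ι → ℂ)).1 - (0 : Matrix ι ι ℂ) ⊙ L = 0 := by
        ext i j
        simp
      rw [e]
      exact Matrix.PosSemidef.zero
    · have e : Matrix.of ((0, 0) : (ι → ι → ℂ) × (ι → ι → ℂ)).2 + (0 : Matrix ι ι ℂ) ⊙ K = 0 := by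
        ext i j
        simp
      rw [e]
      exact Matrix.PosSemidef.zero
  have hu : 0 < u := by
    have := hf1 _ h0
    rwa [show ((0, 0) : (ι → ι → ℂ) × (ι → ι → ℂ)) = 0 from rfl, map_zero] at this
  have hneg : ∀ q ∈ dualCone L K, f q ≤ 0 := by
    intro q hq
    by_contra hc
    push Not at hc
    have h1 := hf1 _ (dualCone_smul hq (a := u / f q) (by positivity))
    rw [map_smul, smul_eq_mul, div_mul_cancel₀ _ hc.ne'] at h1
    exact lt_irrefl _ h1
  -- representation
  let fl : (ι → ι → ℂ) × (ι → ι → ℂ) →ₗ[ℝ] ℝ := f.toLinearMap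
  obtain ⟨A₀, hA₀⟩ := functional_repr (-(fl ∘ₗ LinearMap.inl ℝ _ _))
  obtain ⟨B₀, hB₀⟩ := functional_repr (-(fl ∘ₗ LinearMap.inr ℝ _ _))
  have hf : ∀ M M' : ι → ι → ℂ, - f (M, M') = (∑ i, ∑ j, A₀ i j * M i j).re
      + (∑ i, ∑ j, B₀ i j * M' i j).re := by
    intro M M'
    rw [← hA₀, ← hB₀]
    have : f (M, M') = f (M, 0) + f (0, M') := by
      rw [← map_add]
      simp
    rw [this]
    simp only [fl, LinearMap.neg_apply, LinearMap.comp_apply, LinearMap.inl_apply,
      LinearMap.inr_apply, ContinuousLinearMap.coe_coe]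
    ring
  let A : Matrix ι ι ℂ := Matrix.of fun i j => (A₀ i j + star (A₀ j i)) / 2
  let B : Matrix ι ι ℂ := Matrix.of fun i j => (B₀ i j + star (B₀ j i)) / 2
  have hAh : A.IsHermitian := by
    refine Matrix.IsHermitian.ext fun i j => ?_
    simp only [A, Matrix.of_apply, star_div₀, star_add, star_star]
    rw [show star (2 : ℂ) = 2 by simp]
    ring
  have hBh : B.IsHermitian := by
    refine Matrix.IsHermitian.ext fun i j => ?_
    simp only [B, Matrix.of_apply, star_div₀, star_add, star_star]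
    rw [show star (2 : ℂ) = 2 by simp]
    ring
  have hf' : ∀ M M' : Matrix ι ι ℂ, M.IsHermitian → M'.IsHermitian →
      - f (fun i j => M i j, fun i j => M' i j) = (∑ i, ∑ j, A i j * M i j).re
      + (∑ i, ∑ j, B i j * M' i j).re := by
    intro M M' hM hM'
    rw [hf]
    simp only [A, B, Matrix.of_apply]
    rw [hermitian_part hM, hermitian_part hM']
  -- rank one test matrices
  have hrank : ∀ x : ι → ℂ, (Matrix.of fun i j => star (x i) * x j : Matrix ι ι ℂ).PosSemidef := by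
    intro x
    exact Matrix.posSemidef_vecMulVec_star_self x
  have hA : A.PosSemidef := by
    rw [psd_iff_sum]
    refine ⟨hAh, fun x => ?_⟩
    have hm : ((fun i j => star (x i) * x j, fun _ _ => 0) : (ι → ι → ℂ) × (ι → ι → ℂ))
        ∈ dualCone L K := by
      refine ⟨0, Matrix.PosSemidef.zero, ?_, ?_⟩
      · have := hrank x
        simpa using this
      · have e : Matrix.of (fun (_ : ι) (_ : ι) => (0 : ℂ)) + (0 : Matrix ι ι ℂ) ⊙ K = 0 := by
          ext i j
          simp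
        simp only
        rw [e]
        exact Matrix.PosSemidef.zero
    have h1 := hneg _ hm
    have h2 := hf' (Matrix.of fun i j => star (x i) * x j) 0 (hrank x).isHermitian
      Matrix.isHermitian_zero
    have h3 : (∑ i, ∑ j, star (x i) * A i j * x j) = ∑ i, ∑ j, A i j * (star (x i) * x j) :=
      Finset.sum_congr rfl fun i _ => Finset.sum_congr rfl fun j _ => by ring
    rw [h3]
    simp only [Matrix.of_apply, Matrix.zero_apply, mul_zero, Finset.sum_const_zero,
      Complex.zero_re, add_zero] at h2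
    rw [← h2]
    linarith
  have hB : B.PosSemidef := by
    rw [psd_iff_sum]
    refine ⟨hBh, fun x => ?_⟩
    have hm : ((fun _ _ => 0, fun i j => star (x i) * x j) : (ι → ι → ℂ) × (ι → ι → ℂ))
        ∈ dualCone L K := by
      refine ⟨0, Matrix.PosSemidef.zero, ?_, ?_⟩
      · have e : Matrix.of (fun (_ : ι) (_ : ι) => (0 : ℂ)) - (0 : Matrix ι ι ℂ) ⊙ L = 0 := by
          ext i j
          simp
        simp only
        rw [e]
        exact Matrix.PosSemidef.zero
      · have := hrank x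
        simpa using this
    have h1 := hneg _ hm
    have h2 := hf' 0 (Matrix.of fun i j => star (x i) * x j) Matrix.isHermitian_zero
      (hrank x).isHermitian
    have h3 : (∑ i, ∑ j, star (x i) * B i j * x j) = ∑ i, ∑ j, B i j * (star (x i) * x j) :=
      Finset.sum_congr rfl fun i _ => Finset.sum_congr rfl fun j _ => by ring
    rw [h3]
    simp only [Matrix.of_apply, Matrix.zero_apply, mul_zero, Finset.sum_const_zero,
      Complex.zero_re, zero_add] at h2
    rw [← h2]
    linarith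
  have hAB : (A ⊙ L - B ⊙ K).PosSemidef := by
    rw [psd_iff_sum]
    refine ⟨(hAh.hadamard hL).sub (hBh.hadamard hK), fun x => ?_⟩
    let p : Matrix ι ι ℂ := Matrix.of fun i j => star (x i) * x j
    have hp : p.PosSemidef := hrank x
    have hm : ((fun i j => (p ⊙ L) i j, fun i j => (-(p ⊙ K)) i j) :
        (ι → ι → ℂ) × (ι → ι → ℂ)) ∈ dualCone L K := by
      refine ⟨p, hp, ?_, ?_⟩
      · have e : Matrix.of (fun i j => (p ⊙ L) i j) - p ⊙ L = 0 := by
          ext i j
          simp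
        simp only
        rw [e]
        exact Matrix.PosSemidef.zero
      · have e : Matrix.of (fun i j => (-(p ⊙ K)) i j) + p ⊙ K = 0 := by
          ext i j
          simp
        simp only
        rw [e]
        exact Matrix.PosSemidef.zero
    have h1 := hneg _ hm
    have h2 := hf' (p ⊙ L) (-(p ⊙ K)) (hp.isHermitian.hadamard hL)
      (hp.isHermitian.hadamard hK).neg
    have h3 : (∑ i, ∑ j, star (x i) * (A ⊙ L - B ⊙ K) i j * x j)
        = (∑ i, ∑ j, A i j * (p ⊙ L) i j) + ∑ i, ∑ j, B i j * (-(p ⊙ K)) i j := by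
      rw [← Finset.sum_add_distrib]
      refine Finset.sum_congr rfl fun i _ => ?_
      rw [← Finset.sum_add_distrib]
      refine Finset.sum_congr rfl fun j _ => ?_
      simp only [p, Matrix.sub_apply, Matrix.neg_apply, Matrix.hadamard_apply, Matrix.of_apply]
      ring
    rw [h3, Complex.add_re, ← h2]
    linarith
  have hfin := hyp A B hA hB hAB
  have h2 := hf' L' (-K') hL' hK'.neg
  have h3 : (∑ i, ∑ j, (A i j * L' i j - B i j * K' i j))
      = (∑ i, ∑ j, A i j * L' i j) + ∑ i, ∑ j, B i j * (-K') i j := by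
    rw [← Finset.sum_add_distrib]
    refine Finset.sum_congr rfl fun i _ => ?_
    rw [← Finset.sum_add_distrib]
    refine Finset.sum_congr rfl fun j _ => ?_
    simp only [Matrix.neg_apply]
    ring
  rw [h3, Complex.add_re, ← h2] at hfin
  simp only [Matrix.neg_apply] at hfin
  linarith

end Pool.Agent.Lib.PickPairs

end
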