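import Pool.Agent.Lib.MP_e3a8c8_an.Lemmas

/-!
Certificates on finite sets, by induction on the number of points.
-/

set_option autoImplicit false

noncomputable section

namespace Pool.Agent.Lib.PickPairs

open scoped ComplexOrder Matrix InnerProductSpace

universe u v

variable {X : Type u}

/-- The interpolation property in terms of positive kernels. -/
def AbsCP (k ℓ : Matrix X X ℂ) : Prop :=
  ∀ (N : ℕ) (F : Finset X) (U₀ : X → (CN N →ₗ[ℂ] CN N)),
    (pickForm k ℓ (fun q : F × Fin N => ((q.1 : X), ee q.2, U₀ q.1 (ee q.2)))).PosSemidef →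
    ∃ U : X → (CN N →ₗ[ℂ] CN N), (∀ x ∈ F, U x = U₀ x) ∧
      ∀ (J : Type u) [Fintype J] (y : J → X) (c : J → CN N),
        (pickForm k ℓ (fun j => (y j, c j, U (y j) (c j)))).PosSemidef

/-- The restriction step. -/
lemma zker_form_nonneg {k ℓ : Matrix X X ℂ} (hk : k.PosSemidef) (hℓ : ℓ.PosSemidef) {N : ℕ}
    {U : X → (CN N →ₗ[ℂ] CN N)}
    (hU : ∀ (J : Type u) [Fintype J] (y : J → X) (c : J → CN N),
        (pickForm k ℓ (fun j => (y j, c j, U (y j) (c j)))).PosSemidef)
    (z : X) (_hz : ℓ z z ≠ 0) {J : Type u} [Fintype J] (y : J → X) (c : J → CN N) :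
    0 ≤ (∑ i, ∑ j, (zker ℓ z (y i) (y j) * ⟪c i, c j⟫_ℂ
      - zker k z (y i) (y j) * ⟪U (y i) (c i), U (y j) (c j)⟫_ℂ)).re := by
  set b : CN N := -((ℓ z z)⁻¹ • ∑ j, ℓ z (y j) • c j) with hb
  have h1 := (psd_iff_sum.mp (hU (J ⊕ PUnit.{u+1}) (Sum.elim y (fun _ => z))
    (Sum.elim c (fun _ => b)))).2 (fun _ => 1)
  have e1 := zker_sum hℓ z y c b
  have e2 := zker_sum hk z y (fun j => U (y j) (c j)) (U z b)
  set t := U z b + (k z z)⁻¹ • ∑ j, k z (y j) • U (y j) (c j) with ht
  have hb0 : b + (ℓ z z)⁻¹ • ∑ j, ℓ z (y j) • c j = 0 := by rw [hb]; simp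
  rw [hb0, inner_zero_left, mul_zero, add_zero] at e1
  have e3 : (∑ i, ∑ j, star (1 : ℂ) * pickForm k ℓ (fun j : J ⊕ PUnit.{u+1} =>
        (Sum.elim y (fun _ => z) j, Sum.elim c (fun _ => b) j,
          U (Sum.elim y (fun _ => z) j) (Sum.elim c (fun _ => b) j))) i j * 1)
      = (∑ i, ∑ j, zker ℓ z (y i) (y j) * ⟪c i, c j⟫_ℂ)
        - ((∑ i, ∑ j, zker k z (y i) (y j) * ⟪U (y i) (c i), U (y j) (c j)⟫_ℂ)
          + k z z * ⟪t, t⟫_ℂ) := by
    rw [← e1, ← e2]
    simp only [Fintype.sum_sum_type, pickForm_apply, Sum.elim_inl, Sum.elim_inr, star_one,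
      one_mul, mul_one, Finset.univ_unique, Finset.sum_singleton]
    simp only [Finset.sum_sub_distrib, Finset.sum_add_distrib]
    ring
  rw [e3] at h1
  have h2 : 0 ≤ (k z z * ⟪t, t⟫_ℂ).re := by
    obtain ⟨hk0, hkr⟩ := psd_diag hk z
    have h3 : ⟪t, t⟫_ℂ = ((‖t‖ ^ 2 : ℝ) : ℂ) := by
      rw [inner_self_eq_norm_sq_to_K]
      simp
    rw [h3, Complex.re_mul_ofReal]
    exact mul_nonneg hk0 (sq_nonneg _)
  have e4 : (∑ i, ∑ j, (zker ℓ z (y i) (y j) * ⟪c i, c j⟫_ℂ
      - zker k z (y i) (y j) * ⟪U (y i) (c i), U (y j) (c j)⟫_ℂ))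
      = (∑ i, ∑ j, zker ℓ z (y i) (y j) * ⟪c i, c j⟫_ℂ)
        - (∑ i, ∑ j, zker k z (y i) (y j) * ⟪U (y i) (c i), U (y j) (c j)⟫_ℂ) := by
    simp only [Finset.sum_sub_distrib]
  rw [e4]
  simp only [Complex.sub_re, Complex.add_re] at h1 ⊢
  linarith

/-- A Gram representation in `ℂ^N` with `N` the number of points. -/
lemma exists_gram_fin {I : Type*} [Fintype I] [DecidableEq I] {M : Matrix I I ℂ}
    (hM : M.PosSemidef) : ∃ ξ : I → CN (Fintype.card I), M = Matrix.gram ℂ ξ := by
  obtain ⟨ξ, hξ⟩ := exists_gram hM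
  let φ : EuclideanSpace ℂ I ≃ₗᵢ[ℂ] EuclideanSpace ℂ (Fin (Fintype.card I)) :=
    LinearIsometryEquiv.piLpCongrLeft 2 ℂ ℂ (Fintype.equivFin I)
  refine ⟨fun i => φ (ξ i), ?_⟩
  rw [hξ]
  ext i j
  rw [Matrix.gram_apply, Matrix.gram_apply, LinearIsometryEquiv.inner_map_map]

lemma sum_ee {N : ℕ} (v : CN N) : v = ∑ b, v b • (ee b : CN N) := by
  ext a
  simp [ee, Pi.single_apply]

/-- The certificate at `z` restricted to a finite set. -/
def CertOn (k ℓ : Matrix X X ℂ) (z : X) (F : Finset X) : Prop :=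
  CertAt (k.submatrix (Subtype.val : F → X) Subtype.val) (ℓ.submatrix (Subtype.val : F → X) Subtype.val)
    ((zker k z).submatrix (Subtype.val : F → X) Subtype.val) ((zker ℓ z).submatrix (Subtype.val : F → X) Subtype.val)

/-- Extension of a certificate at `z` by zero to the point `z`. -/
lemma certOn_insert [DecidableEq X] {k ℓ : Matrix X X ℂ} (hk : k.PosSemidef) (hℓ : ℓ.PosSemidef)
    (z : X) (F : Finset X) (hc : CertOn k ℓ z (F.erase z)) : CertOn k ℓ z F := by
  obtain ⟨p, hp, h1, h2⟩ := hc
  let P : Matrix F F ℂ := Matrix.of fun i j =>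
    if h : i.1 ≠ z ∧ j.1 ≠ z then p ⟨i.1, Finset.mem_erase.mpr ⟨h.1, i.2⟩⟩
      ⟨j.1, Finset.mem_erase.mpr ⟨h.2, j.2⟩⟩ else 0
  have hP1 : ∀ i j : F, ¬ (i.1 ≠ z) → P i j = 0 := by
    intro i j hi
    simp only [P, Matrix.of_apply]
    rw [dif_neg]
    intro h
    exact hi h.1
  have hP2 : ∀ i j : F, ¬ (j.1 ≠ z) → P i j = 0 := by
    intro i j hj
    simp only [P, Matrix.of_apply]
    rw [dif_neg]
    intro h
    exact hj h.2
  let g : {i : F // i.1 ≠ z} → ↥(F.erase z) := fun i => ⟨i.1.1, Finset.mem_erase.mpr ⟨i.2, i.1.2⟩⟩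
  have hPg : P.submatrix (Subtype.val : {i : F // i.1 ≠ z} → F) Subtype.val = p.submatrix g g := by
    ext i j
    simp only [P, Matrix.submatrix_apply, Matrix.of_apply, g]
    rw [dif_pos ⟨i.2, j.2⟩]
  refine ⟨P, ?_, ?_, ?_⟩
  · refine psd_of_support_fin (fun i : F => i.1 ≠ z) hP1 hP2 ?_
    rw [hPg]
    exact hp.submatrix g
  · refine psd_of_support_fin (fun i : F => i.1 ≠ z) ?_ ?_ ?_
    · intro i j hi
      have hi' : i.1 = z := not_not.mp hi
      simp only [Matrix.sub_apply, Matrix.hadamard_apply, hP1 i j hi, zero_mul, sub_zero,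
        Matrix.submatrix_apply, hi']
      exact zker_self_left hℓ z _
    · intro i j hj
      have hj' : j.1 = z := not_not.mp hj
      simp only [Matrix.sub_apply, Matrix.hadamard_apply, hP2 i j hj, zero_mul, sub_zero,
        Matrix.submatrix_apply, hj']
      exact zker_self_right hℓ z _
    · have e : ((zker ℓ z).submatrix (Subtype.val : F → X) Subtype.val - P ⊙ ℓ.submatrix (Subtype.val : F → X) Subtype.val).submatrix
          (Subtype.val : {i : F // i.1 ≠ z} → F) Subtype.val
          = ((zker ℓ z).submatrix (Subtype.val : ↥(F.erase z) → X) Subtype.val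
            - p ⊙ ℓ.submatrix (Subtype.val : ↥(F.erase z) → X) Subtype.val).submatrix g g := by
        ext i j
        have := congrFun (congrFun hPg i) j
        simp only [Matrix.submatrix_apply] at this
        simp only [Matrix.submatrix_apply, Matrix.sub_apply, Matrix.hadamard_apply, this]
        rfl
      rw [e]
      exact h1.submatrix g
  · refine psd_of_support_fin (fun i : F => i.1 ≠ z) ?_ ?_ ?_
    · intro i j hi
      have hi' : i.1 = z := not_not.mp hi
      simp only [Matrix.sub_apply, Matrix.hadamard_apply, hP1 i j hi, zero_mul, zero_sub,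
        Matrix.submatrix_apply, hi']
      rw [zker_self_left hk z _, neg_zero]
    · intro i j hj
      have hj' : j.1 = z := not_not.mp hj
      simp only [Matrix.sub_apply, Matrix.hadamard_apply, hP2 i j hj, zero_mul, zero_sub,
        Matrix.submatrix_apply, hj']
      rw [zker_self_right hk z _, neg_zero]
    · have e : (P ⊙ k.submatrix (Subtype.val : F → X) Subtype.val - (zker k z).submatrix (Subtype.val : F → X) Subtype.val).submatrix
          (Subtype.val : {i : F // i.1 ≠ z} → F) Subtype.val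
          = (p ⊙ k.submatrix (Subtype.val : ↥(F.erase z) → X) Subtype.val
            - (zker k z).submatrix (Subtype.val : ↥(F.erase z) → X) Subtype.val).submatrix g g := by
        ext i j
        have := congrFun (congrFun hPg i) j
        simp only [Matrix.submatrix_apply] at this
        simp only [Matrix.submatrix_apply, Matrix.sub_apply, Matrix.hadamard_apply, this]
        rfl
      rw [e]
      exact h2.submatrix g

/-- The main step: from certificates at the points of `F` on `F`, get one at any point. -/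
lemma certOn_step [DecidableEq X] {k ℓ : Matrix X X ℂ} (hk : k.PosSemidef) (hℓ : ℓ.PosSemidef)
    (hne : ∀ x, ℓ x x ≠ 0) (hCP : AbsCP k ℓ) (F : Finset X)
    (hF : ∀ w ∈ F, CertOn k ℓ w F) (z : X) : CertOn k ℓ z F := by
  have hkF := hk.submatrix ((↑) : F → X)
  have hℓF := hℓ.submatrix ((↑) : F → X)
  refine duality (L := ℓ.submatrix (Subtype.val : F → X) Subtype.val) (K := k.submatrix (Subtype.val : F → X) Subtype.val)
    (L' := (zker ℓ z).submatrix (Subtype.val : F → X) Subtype.val) (K' := (zker k z).submatrix (Subtype.val : F → X) Subtype.val)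
    hℓF.isHermitian hkF.isHermitian ((zker_isHermitian hℓ z).submatrix _)
    ((zker_isHermitian hk z).submatrix _) ?_ ?_
  · intro i
    obtain ⟨h1, h2⟩ := psd_diag hℓ i.1
    apply lt_of_le_of_ne h1
    intro h3
    apply hne i.1
    rw [← h2, ← h3, Complex.ofReal_zero]
  · intro A B hA hB hAB
    obtain ⟨N, ξ, η, hξ, hη⟩ : ∃ (N : ℕ) (ξ η : F → CN N), A = Matrix.gram ℂ ξ ∧
        B = Matrix.gram ℂ η := by
      obtain ⟨ξ, hξ⟩ := exists_gram_fin hA
      obtain ⟨η, hη⟩ := exists_gram_fin hB
      exact ⟨_, ξ, η, hξ, hη⟩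
    let d : F → F × CN N × CN N := fun i => (i, ξ i, η i)
    have hd : (pickForm (k.submatrix (Subtype.val : F → X) Subtype.val) (ℓ.submatrix (Subtype.val : F → X) Subtype.val) d).PosSemidef
        := by
      have e : pickForm (k.submatrix (Subtype.val : F → X) Subtype.val) (ℓ.submatrix (Subtype.val : F → X) Subtype.val) d
          = A ⊙ ℓ.submatrix (Subtype.val : F → X) Subtype.val - B ⊙ k.submatrix (Subtype.val : F → X) Subtype.val := by
        rw [hξ, hη]
        ext i j
        simp only [pickForm_apply, d, Matrix.sub_apply, Matrix.hadamard_apply,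
          Matrix.gram_apply]
        ring
      rw [e]
      exact hAB
    obtain ⟨U, hU⟩ := tangential hkF hℓF Finset.univ
      (fun w _ => ⟨by simpa using hne w.1, hF w.1 w.2⟩) d hd
    let U₀ : X → (CN N →ₗ[ℂ] CN N) := fun x => if h : x ∈ F then U ⟨x, h⟩ else 0
    have hU₀ : ∀ x : F, U₀ x = U x := by
      intro x
      simp only [U₀]
      rw [dif_pos x.2]
    have hP : (pickForm k ℓ (fun q : F × Fin N => ((q.1 : X), ee q.2, U₀ q.1 (ee q.2)))).PosSemidef
        := by
      have := hU.submatrix (fun q : F × Fin N =>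
        (Sum.inr (⟨q.1, Finset.mem_univ _⟩, q.2) : F ⊕ (↥(Finset.univ : Finset F) × Fin N)))
      have e : pickForm k ℓ (fun q : F × Fin N => ((q.1 : X), ee q.2, U₀ q.1 (ee q.2)))
          = (pickForm (k.submatrix (Subtype.val : F → X) Subtype.val) (ℓ.submatrix (Subtype.val : F → X) Subtype.val)
            (Sum.elim d (fun q : ↥(Finset.univ : Finset F) × Fin N =>
              (q.1.1, ee q.2, U q.1.1 (ee q.2))))).submatrix
            (fun q : F × Fin N => (Sum.inr (⟨q.1, Finset.mem_univ _⟩, q.2) :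
              F ⊕ (↥(Finset.univ : Finset F) × Fin N)))
            (fun q : F × Fin N => (Sum.inr (⟨q.1, Finset.mem_univ _⟩, q.2) :
              F ⊕ (↥(Finset.univ : Finset F) × Fin N))) := by
        ext p q
        simp only [pickForm_apply, Matrix.submatrix_apply, Sum.elim_inr, hU₀]
      rw [e]
      exact this
    obtain ⟨W, hW1, hW2⟩ := hCP N F U₀ hP
    have hfin := zker_form_nonneg hk hℓ hW2 z (hne z) (fun i : F => (i : X)) ξ
    have compat : ∀ i : F, k i i ≠ 0 → W i (ξ i) = η i := by
      intro i hki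
      rw [hW1 i i.2, hU₀]
      -- restrict to the point `i`
      have h3 := hU.submatrix (Sum.elim (fun _ : Unit => Sum.inl i)
        (fun b : Fin N => Sum.inr (⟨i, Finset.mem_univ _⟩, b)) :
          Unit ⊕ Fin N → F ⊕ (↥(Finset.univ : Finset F) × Fin N))
      have e : (pickForm (k.submatrix (Subtype.val : F → X) Subtype.val) (ℓ.submatrix (Subtype.val : F → X) Subtype.val)
            (Sum.elim d (fun q : ↥(Finset.univ : Finset F) × Fin N =>
              (q.1.1, ee q.2, U q.1.1 (ee q.2))))).submatrix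
              (Sum.elim (fun _ : Unit => Sum.inl i)
                (fun b : Fin N => Sum.inr (⟨i, Finset.mem_univ _⟩, b)) :
                Unit ⊕ Fin N → F ⊕ (↥(Finset.univ : Finset F) × Fin N))
              (Sum.elim (fun _ : Unit => Sum.inl i)
                (fun b : Fin N => Sum.inr (⟨i, Finset.mem_univ _⟩, b)))
          = pickForm k ℓ (fun j : Unit ⊕ Fin N => ((i : X), Sum.elim (fun _ => ξ i) ee j,
              Sum.elim (fun _ => η i) (fun b => U i (ee b)) j)) := by
        ext p q
        rcases p with p | p <;> rcases q with q | q <;> rfl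
      rw [e] at h3
      have h4 := same_point_compat hk hki _ _ h3
        (Sum.elim (fun _ => (1 : ℂ)) (fun b => - (ξ i) b)) ?_
      · simp only [Fintype.sum_sum_type, Finset.univ_unique, Finset.sum_singleton, Sum.elim_inl,
          Sum.elim_inr, one_smul, neg_smul, Finset.sum_neg_distrib] at h4
        have h5 : ∑ b, (ξ i) b • U i (ee b) = U i (ξ i) := by
          conv_rhs => rw [sum_ee (ξ i)]
          rw [map_sum]
          refine Finset.sum_congr rfl fun b _ => ?_
          rw [map_smul]
        rw [h5] at h4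
        exact (add_neg_eq_zero.mp h4).symm
      · simp only [Fintype.sum_sum_type, Finset.univ_unique, Finset.sum_singleton, Sum.elim_inl,
          Sum.elim_inr, one_smul, neg_smul, Finset.sum_neg_distrib]
        rw [← sum_ee (ξ i), add_neg_cancel]
    convert hfin using 2
    refine Finset.sum_congr rfl fun i _ => Finset.sum_congr rfl fun j _ => ?_
    have hA' : A i j = ⟪ξ i, ξ j⟫_ℂ := by rw [hξ, Matrix.gram_apply]
    have hB' : B i j = ⟪η i, η j⟫_ℂ := by rw [hη, Matrix.gram_apply]
    rw [hA', hB', Matrix.submatrix_apply, Matrix.submatrix_apply]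
    have hK : ⟪η i, η j⟫_ℂ * zker k z i j = zker k z i j * ⟪W i (ξ i), W j (ξ j)⟫_ℂ := by
      by_cases hi : k i i = 0
      · have h7 : zker k z i j = 0 := by
          rw [zker_apply, psd_zero_row hk hi, psd_zero_row hk hi]
          simp
        rw [h7]
        ring
      · by_cases hj : k j j = 0
        · have h7 : zker k z i j = 0 := by
            rw [zker_apply, psd_zero_col hk hj, psd_zero_col hk hj]
            simp
          rw [h7]
          ring
        · rw [compat i hi, compat j hj]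
          ring
    rw [hK]
    ring

/-- Certificates on all finite sets. -/
theorem certOn_all [DecidableEq X] {k ℓ : Matrix X X ℂ} (hk : k.PosSemidef) (hℓ : ℓ.PosSemidef)
    (hne : ∀ x, ℓ x x ≠ 0) (hCP : AbsCP k ℓ) (n : ℕ) :
    ∀ F : Finset X, F.card = n → ∀ z, CertOn k ℓ z F := by
  induction n with
  | zero =>
    intro F hF z
    rw [Finset.card_eq_zero] at hF
    subst hF
    exact certOn_step hk hℓ hne hCP ∅ (fun w hw => absurd hw (Finset.notMem_empty w)) z
  | succ n ih =>
    intro F hF z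
    refine certOn_step hk hℓ hne hCP F (fun w hw => ?_) z
    apply certOn_insert hk hℓ
    apply ih
    rw [Finset.card_erase_of_mem hw, hF]
    rfl

end Pool.Agent.Lib.PickPairs

end
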