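import Pool.Agent.Lib.MP_e3a8c8_an.Tangential
import Pool.Agent.Lib.MP_e3a8c8_an.Duality

/-!
Auxiliary lemmas: restriction to functions vanishing at a point, compatibility at one point,
extension by zero.
-/

set_option autoImplicit false

noncomputable section

namespace Pool.Agent.Lib.PickPairs

open scoped ComplexOrder Matrix InnerProductSpace

universe u v

variable {X : Type*} {V : Type*} [NormedAddCommGroup V] [InnerProductSpace ℂ V]

/-- Completing the square at the point `z`. -/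
lemma zker_sum {m : Matrix X X ℂ} (hm : m.PosSemidef) (z : X) {J : Type*} [Fintype J]
    (y : J → X) (a : J → V) (b : V) :
    (∑ i, ∑ j, m (y i) (y j) * ⟪a i, a j⟫_ℂ) + (∑ i, m (y i) z * ⟪a i, b⟫_ℂ)
      + (∑ j, m z (y j) * ⟪b, a j⟫_ℂ) + m z z * ⟪b, b⟫_ℂ
    = (∑ i, ∑ j, zker m z (y i) (y j) * ⟪a i, a j⟫_ℂ)
      + m z z * ⟪b + (m z z)⁻¹ • ∑ j, m z (y j) • a j, b + (m z z)⁻¹ • ∑ j, m z (y j) • a j⟫_ℂ := by
  set s := ∑ j, m z (y j) • a j with hs
  have h1 : (∑ i, m (y i) z * ⟪a i, b⟫_ℂ) = ⟪s, b⟫_ℂ := by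
    rw [hs, sum_inner]
    refine Finset.sum_congr rfl fun i _ => ?_
    rw [inner_smul_left, ← Complex.star_def, hm.isHermitian.apply]
  have h2 : (∑ j, m z (y j) * ⟪b, a j⟫_ℂ) = ⟪b, s⟫_ℂ := by
    rw [hs, inner_sum]
    refine Finset.sum_congr rfl fun i _ => ?_
    rw [inner_smul_right]
  have h3 : (∑ i, ∑ j, zker m z (y i) (y j) * ⟪a i, a j⟫_ℂ)
      = (∑ i, ∑ j, m (y i) (y j) * ⟪a i, a j⟫_ℂ) - (m z z)⁻¹ * ⟪s, s⟫_ℂ := by
    have h4 : ⟪s, s⟫_ℂ = ∑ i, ∑ j, m (y i) z * m z (y j) * ⟪a i, a j⟫_ℂ := by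
      rw [hs, sum_inner]
      refine Finset.sum_congr rfl fun i _ => ?_
      rw [inner_sum]
      refine Finset.sum_congr rfl fun j _ => ?_
      rw [inner_smul_left, inner_smul_right, ← Complex.star_def, hm.isHermitian.apply]
      ring
    rw [h4, Finset.mul_sum, ← Finset.sum_sub_distrib]
    refine Finset.sum_congr rfl fun i _ => ?_
    rw [Finset.mul_sum, ← Finset.sum_sub_distrib]
    refine Finset.sum_congr rfl fun j _ => ?_
    rw [zker_apply, div_eq_mul_inv]
    ring
  have hreal : (starRingEnd ℂ) (m z z)⁻¹ = (m z z)⁻¹ := by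
    rw [map_inv₀, ← Complex.star_def, hm.isHermitian.apply]
  rw [h1, h2, h3, inner_add_left, inner_add_right, inner_add_right, inner_smul_left,
    inner_smul_left, inner_smul_right, inner_smul_right, hreal]
  by_cases h0 : m z z = 0
  · have hs0 : s = 0 := by
      rw [hs]
      apply Finset.sum_eq_zero
      intro j _
      rw [psd_zero_row hm h0, zero_smul]
    rw [h0, hs0]
    simp
  · field_simp
    ring

/-- If all the vectors sit at the same point `w` with `k(w, w) ≠ 0`, positivity of the form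
makes the assignment `ξ ↦ η` linear. -/
lemma same_point_compat {k ℓ : Matrix X X ℂ} (hk : k.PosSemidef) {w : X} (hkw : k w w ≠ 0)
    {J : Type*} [Fintype J] (ξ η : J → V)
    (h : (pickForm k ℓ (fun j => (w, ξ j, η j))).PosSemidef) (a : J → ℂ)
    (h0 : ∑ j, a j • ξ j = 0) : ∑ j, a j • η j = 0 := by
  have h1 := (psd_iff_sum.mp h).2 a
  have e : (∑ i, ∑ j, star (a i) * pickForm k ℓ (fun j => (w, ξ j, η j)) i j * a j)
      = ℓ w w * ⟪∑ i, a i • ξ i, ∑ i, a i • ξ i⟫_ℂ - k w w * ⟪∑ i, a i • η i, ∑ i, a i • η i⟫_ℂ := by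
    rw [← gram_form, ← gram_form, Finset.mul_sum, Finset.mul_sum, ← Finset.sum_sub_distrib]
    refine Finset.sum_congr rfl fun i _ => ?_
    rw [Finset.mul_sum, Finset.mul_sum, ← Finset.sum_sub_distrib]
    refine Finset.sum_congr rfl fun j _ => ?_
    rw [pickForm_apply, Matrix.gram_apply, Matrix.gram_apply]
    ring
  rw [e, h0, inner_zero_left, mul_zero, zero_sub] at h1
  obtain ⟨hk0, hkr⟩ := psd_diag hk w
  have hkpos : 0 < (k w w).re := by
    apply lt_of_le_of_ne hk0
    intro h2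
    apply hkw
    rw [← hkr, ← h2, Complex.ofReal_zero]
  set T := ∑ i, a i • η i with hT
  have h2 : (k w w * ⟪T, T⟫_ℂ).re = (k w w).re * ‖T‖ ^ 2 := by
    have h3 : ⟪T, T⟫_ℂ = ((‖T‖ ^ 2 : ℝ) : ℂ) := by
      rw [inner_self_eq_norm_sq_to_K]
      simp
    rw [h3, Complex.re_mul_ofReal]
  rw [Complex.neg_re, h2] at h1
  have h4 : ‖T‖ ^ 2 ≤ 0 := by
    by_contra hc
    push Not at hc
    have := mul_pos hkpos hc
    linarith
  have h5 : ‖T‖ = 0 := by
    have := sq_nonneg ‖T‖
    exact pow_eq_zero_iff (two_ne_zero) |>.mp (le_antisymm h4 this)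
  exact norm_eq_zero.mp h5

lemma sum_of_support {I : Type*} [Fintype I] (p : I → Prop) [DecidablePred p] (f : I → ℂ)
    (h : ∀ i, ¬ p i → f i = 0) : ∑ i, f i = ∑ a : {i // p i}, f a := by
  rw [← Fintype.sum_subtype_add_sum_subtype p f]
  have : ∑ i : {x // ¬ p x}, f i = 0 := Finset.sum_eq_zero fun i _ => h i.1 i.2
  rw [this, add_zero]

/-- Extension by zero preserves positivity (finite case). -/
lemma psd_of_support_fin {I : Type*} [Fintype I] (p : I → Prop) {M : Matrix I I ℂ}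
    (h1 : ∀ i j, ¬ p i → M i j = 0) (h2 : ∀ i j, ¬ p j → M i j = 0)
    (h : (M.submatrix ((↑) : {i // p i} → I) (↑)).PosSemidef) : M.PosSemidef := by
  classical
  rw [psd_iff_sum] at h ⊢
  refine ⟨?_, fun x => ?_⟩
  · refine Matrix.IsHermitian.ext fun i j => ?_
    by_cases hi : p i
    · by_cases hj : p j
      · exact h.1.apply ⟨i, hi⟩ ⟨j, hj⟩
      · rw [h1 j i hj, h2 i j hj, star_zero]
    · rw [h2 j i hi, h1 i j hi, star_zero]
  · have h3 := h.2 (fun a => x a)
    have e : (∑ i, ∑ j, star (x i) * M i j * x j)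
        = ∑ a : {i // p i}, ∑ b : {i // p i}, star (x a) * M a b * x b := by
      rw [sum_of_support p]
      · refine Finset.sum_congr rfl fun a _ => ?_
        rw [sum_of_support p]
        intro j hj
        rw [h2 _ _ hj]
        ring
      · intro i hi
        apply Finset.sum_eq_zero
        intro j _
        rw [h1 _ _ hi]
        ring
    rw [e]
    exact h3

/-- Extension by zero preserves positivity. -/
lemma psd_of_support {I : Type*} (p : I → Prop) {M : Matrix I I ℂ}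
    (h1 : ∀ i j, ¬ p i → M i j = 0) (h2 : ∀ i j, ¬ p j → M i j = 0)
    (h : (M.submatrix ((↑) : {i // p i} → I) (↑)).PosSemidef) : M.PosSemidef := by
  apply psd_of_finite
  intro F
  refine psd_of_support_fin (fun i : F => p i) (fun i j hi => h1 _ _ hi)
    (fun i j hj => h2 _ _ hj) ?_
  have := h.submatrix (fun i : {i : F // p i} => (⟨i.1.1, i.2⟩ : {i // p i}))
  exact this

end Pool.Agent.Lib.PickPairs

end
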