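import Pool.Agent.Lib.MP_e3a8c8_an.OneStep

/-!
Contractive multipliers and positivity.
-/

set_option autoImplicit false

noncomputable section

namespace Pool.Agent.Lib.PickPairs

open scoped ComplexOrder Matrix InnerProductSpace

universe u v

variable {X : Type u} {k ℓ : Matrix X X ℂ} [Fact k.PosSemidef] [Fact ℓ.PosSemidef] {N : ℕ}

/-- Kernel functions of `H_k ⊗ ℂ^N`. -/
def kf (k : Matrix X X ℂ) [Fact k.PosSemidef] (N : ℕ) (x : X) (v : CN N) : HkN k N :=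
  RKHS.kerFun (HkN k N) x v

lemma kf_inner (x : X) (v : CN N) (f : HkN k N) : ⟪kf k N x v, f⟫_ℂ = ⟪v, f x⟫_ℂ :=
  RKHS.kerFun_inner x v f

lemma kf_apply (x y : X) (v : CN N) : (kf k N y v : HkN k N) x = k x y • v := by
  unfold kf
  rw [RKHS.kerFun_apply, RKHS.OfKernel.kernel_ofKernel]
  rfl

lemma kf_inner_kf (x y : X) (v w : CN N) : ⟪kf k N x v, kf k N y w⟫_ℂ = k x y * ⟪v, w⟫_ℂ := by
  rw [kf_inner, kf_apply, inner_smul_right]

lemma pickForm_eq_gram {J : Type*} (y : J → X) (c c' : J → CN N) :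
    pickForm k ℓ (fun j => (y j, c j, c' j))
      = Matrix.gram ℂ (fun j => kf ℓ N (y j) (c j)) - Matrix.gram ℂ (fun j => kf k N (y j) (c' j))
      := by
  ext i j
  rw [Matrix.sub_apply, Matrix.gram_apply, Matrix.gram_apply, kf_inner_kf, kf_inner_kf,
    pickForm_apply]

lemma adj_inner (A : Matrix (Fin N) (Fin N) ℂ) (x y : CN N) :
    ⟪Matrix.toEuclideanLin Aᴴ x, y⟫_ℂ = ⟪x, Matrix.toEuclideanLin A y⟫_ℂ := by
  rw [Matrix.toEuclideanLin_conjTranspose_eq_adjoint, LinearMap.adjoint_inner_left]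

lemma norm_le_aux {H₁ H₂ : Type*} [NormedAddCommGroup H₁] [InnerProductSpace ℂ H₁]
    [NormedAddCommGroup H₂] [InnerProductSpace ℂ H₂] {f : H₁} {h g : H₂}
    (h1 : ⟪f, f⟫_ℂ = ⟪h, g⟫_ℂ) (hg2 : ‖g‖ ≤ ‖f‖) : ‖f‖ ≤ ‖h‖ := by
  have h2 : ‖f‖ ^ 2 ≤ ‖h‖ * ‖f‖ := by
    have h3 : ‖⟪f, f⟫_ℂ‖ = ‖f‖ ^ 2 := by
      rw [inner_self_eq_norm_sq_to_K]
      simp
    rw [← h3, h1]
    calc ‖⟪h, g⟫_ℂ‖ ≤ ‖h‖ * ‖g‖ := norm_inner_le_norm _ _
      _ ≤ ‖h‖ * ‖f‖ := by gcongr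
  by_cases hf0 : ‖f‖ = 0
  · rw [hf0]
    exact norm_nonneg _
  · have hpos : 0 < ‖f‖ := lt_of_le_of_ne (norm_nonneg _) (Ne.symm hf0)
    rw [sq] at h2
    exact le_of_mul_le_mul_right h2 hpos

/-- A contractive multiplier gives a positive kernel. -/
lemma multiplier_psd {Φ : X → Matrix (Fin N) (Fin N) ℂ} (hΦ : IsContractiveMultiplier k ℓ Φ)
    {J : Type v} [Fintype J] (y : J → X) (c : J → CN N) :
    (pickForm k ℓ (fun j => (y j, c j, Matrix.toEuclideanLin (Φ (y j))ᴴ (c j)))).PosSemidef := by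
  rw [pickForm_eq_gram]
  apply psd_gram_sub
  intro a
  set f : HkN k N := ∑ i, a i • kf k N (y i) (Matrix.toEuclideanLin (Φ (y i))ᴴ (c i)) with hf
  set h : HkN ℓ N := ∑ i, a i • kf ℓ N (y i) (c i) with hh
  obtain ⟨g, hg1, hg2⟩ := hΦ f
  refine norm_le_aux (h := h) (g := g) ?_ hg2
  have e1 : ⟪f, f⟫_ℂ = ∑ i, (starRingEnd ℂ) (a i) *
      ⟪kf k N (y i) (Matrix.toEuclideanLin (Φ (y i))ᴴ (c i)), f⟫_ℂ := by
    have e0 : ⟪f, f⟫_ℂ = ⟪∑ i, a i • kf k N (y i) (Matrix.toEuclideanLin (Φ (y i))ᴴ (c i)),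
      f⟫_ℂ := rfl
    rw [e0, sum_inner]
    exact Finset.sum_congr rfl fun i _ => inner_smul_left _ _ _
  have e2 : ⟪h, g⟫_ℂ = ∑ i, (starRingEnd ℂ) (a i) * ⟪kf ℓ N (y i) (c i), g⟫_ℂ := by
    rw [hh, sum_inner]
    exact Finset.sum_congr rfl fun i _ => inner_smul_left _ _ _
  rw [e1, e2]
  refine Finset.sum_congr rfl fun i _ => ?_
  rw [kf_inner, kf_inner, adj_inner, hg1]

/-- Bounded functionals prescribed on a family of vectors. -/
lemma exists_vector {H : Type*} [NormedAddCommGroup H] [InnerProductSpace ℂ H] [CompleteSpace H]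
    {ι : Type*} (e : ι → H) (α : ι → ℂ) (C : ℝ) (hC : 0 ≤ C)
    (hle : ∀ a : ι →₀ ℂ, ‖a.sum fun i c => c * α i‖ ≤ C * ‖a.sum fun i c => c • e i‖) :
    ∃ g : H, ‖g‖ ≤ C ∧ ∀ i, ⟪g, e i⟫_ℂ = α i := by
  classical
  let L : (ι →₀ ℂ) →ₗ[ℂ] H := Finsupp.linearCombination ℂ e
  let R : (ι →₀ ℂ) →ₗ[ℂ] ℂ := Finsupp.linearCombination ℂ α
  have hle' : ∀ a, ‖R a‖ ≤ C * ‖L a‖ := by
    intro a
    have := hle a
    simpa [L, R, Finsupp.linearCombination_apply] using this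
  let S : Submodule ℂ H := LinearMap.range L
  obtain ⟨σ, hσ⟩ := LinearMap.exists_rightInverse_of_surjective L.rangeRestrict
    (LinearMap.range_rangeRestrict L)
  have hσ' : ∀ y : S, L (σ y) = y := by
    intro y
    have := congrArg (fun f => (f y : S)) hσ
    simp only [LinearMap.comp_apply, LinearMap.id_apply] at this
    exact congrArg Subtype.val this
  let φ₀ : S →ₗ[ℂ] ℂ := R ∘ₗ σ
  have hφ₀ : ∀ y : S, ‖φ₀ y‖ ≤ C * ‖y‖ := by
    intro y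
    calc ‖R (σ y)‖ ≤ C * ‖L (σ y)‖ := hle' _
      _ = C * ‖y‖ := by rw [hσ']; rfl
  let φ₁ : StrongDual ℂ S := φ₀.mkContinuous C hφ₀
  obtain ⟨φ, hφ1, hφ2⟩ := exists_extension_norm_eq S φ₁
  let g : H := (InnerProductSpace.toDual ℂ H).symm φ
  refine ⟨g, ?_, fun i => ?_⟩
  · calc ‖g‖ = ‖φ‖ := by simp [g]
      _ = ‖φ₁‖ := hφ2
      _ ≤ C := LinearMap.mkContinuous_norm_le _ hC _
  · have h1 : L (Finsupp.single i 1) = e i := by simp [L]
    have h2 : R (Finsupp.single i 1) = α i := by simp [R]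
    have hmem : e i ∈ S := ⟨Finsupp.single i 1, h1⟩
    have h3 : ⟪g, e i⟫_ℂ = φ (e i) := by
      simp [g, InnerProductSpace.toDual_symm_apply]
    rw [h3]
    have h4 := hφ1 ⟨e i, hmem⟩
    simp only at h4
    rw [h4]
    change R (σ ⟨e i, hmem⟩) = α i
    rw [← h2, ← sub_eq_zero, ← map_sub, ← norm_eq_zero]
    apply le_antisymm _ (norm_nonneg _)
    refine (hle' _).trans ?_
    rw [map_sub, hσ', h1]
    simp

/-- Conversely, positivity gives a contractive multiplier. -/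
lemma multiplier_of_psd {Φ : X → Matrix (Fin N) (Fin N) ℂ}
    (hΦ : ∀ (J : Type u) [Fintype J] (y : J → X) (c : J → CN N),
      (pickForm k ℓ (fun j => (y j, c j, Matrix.toEuclideanLin (Φ (y j))ᴴ (c j)))).PosSemidef) :
    IsContractiveMultiplier k ℓ Φ := by
  classical
  intro f
  have hle : ∀ a : (X × CN N) →₀ ℂ,
      ‖a.sum fun i c => c * ⟪Matrix.toEuclideanLin (Φ i.1) (f i.1), i.2⟫_ℂ‖
        ≤ ‖f‖ * ‖a.sum fun i c => c • kf ℓ N i.1 i.2‖ := by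
    intro a
    have hp := hΦ a.support (fun q => q.1.1) (fun q => q.1.2)
    rw [pickForm_eq_gram] at hp
    have h1 := norm_le_of_psd hp (fun q => a q.1)
    have e1 : (a.sum fun i c => c • kf ℓ N i.1 i.2)
        = ∑ q : a.support, a q.1 • kf ℓ N q.1.1 q.1.2 := by
      rw [Finsupp.sum, ← Finset.sum_coe_sort]
    have e2 : (a.sum fun i c => c * ⟪Matrix.toEuclideanLin (Φ i.1) (f i.1), i.2⟫_ℂ)
        = ⟪f, ∑ q : a.support,
          a q.1 • kf k N q.1.1 (Matrix.toEuclideanLin (Φ q.1.1)ᴴ q.1.2)⟫_ℂ := by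
      rw [inner_sum, Finsupp.sum, ← Finset.sum_coe_sort]
      refine Finset.sum_congr rfl fun q _ => ?_
      rw [inner_smul_right, ← inner_conj_symm f, kf_inner, adj_inner, inner_conj_symm]
    rw [e1, e2]
    exact (norm_inner_le_norm _ _).trans (mul_le_mul_of_nonneg_left h1 (norm_nonneg _))
  obtain ⟨g, hg1, hg2⟩ := exists_vector (H := HkN ℓ N) (ι := X × CN N)
    (fun q => kf ℓ N q.1 q.2) (fun q => ⟪Matrix.toEuclideanLin (Φ q.1) (f q.1), q.2⟫_ℂ)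
    ‖f‖ (norm_nonneg _) hle
  refine ⟨g, fun x => ?_, hg1⟩
  refine ext_inner_right ℂ fun v => ?_
  rw [← hg2 (x, v), ← inner_conj_symm g, kf_inner, inner_conj_symm]

end Pool.Agent.Lib.PickPairs

end
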