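import Pool.Agent.Lib.MP_e3a8c8_an.Compact
import Pool.Agent.Lib.MP_e3a8c8_an.Multiplier

/-!
Every complete Pick pair `(k, ℓ)` with `ℓ(x, x) ≠ 0` whenever `k(x, x) ≠ 0` has a Shimorin
certificate.
-/

set_option autoImplicit false

noncomputable section

namespace Pool.Agent.Lib.PickPairs

open scoped ComplexOrder Matrix InnerProductSpace

universe u v

variable {X : Type u}

lemma inner_ee_left {N : ℕ} (a : Fin N) (v : CN N) : ⟪(ee a : CN N), v⟫_ℂ = v a := by
  simp [ee, EuclideanSpace.inner_single_left]

lemma inner_ee {N : ℕ} (A B : Matrix (Fin N) (Fin N) ℂ) (a b : Fin N) :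
    ⟪Matrix.toEuclideanLin Aᴴ (ee a), Matrix.toEuclideanLin Bᴴ (ee b)⟫_ℂ = (A * Bᴴ) a b := by
  rw [adj_inner, inner_ee_left]
  simp only [Matrix.ofLp_toEuclideanLin_apply]
  rw [Matrix.mulVec_mulVec]
  simp [ee]

lemma inner_ee_ee {N : ℕ} (a b : Fin N) :
    ⟪(ee a : CN N), ee b⟫_ℂ = (1 : Matrix (Fin N) (Fin N) ℂ) a b := by
  rw [inner_ee_left]
  simp [ee, Matrix.one_apply, Pi.single_apply]

/-- The restriction of a complete Pick pair to the set where `ℓ(x, x) ≠ 0` satisfies the
abstract interpolation property. -/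
lemma absCP_of_isCPPair {X : Type u} {k ℓ : Matrix X X ℂ} [Fact k.PosSemidef]
    [Fact ℓ.PosSemidef] (h : IsCPPair k ℓ) (P : X → Prop) :
    AbsCP (k.submatrix (Subtype.val : {x // P x} → X) Subtype.val)
      (ℓ.submatrix (Subtype.val : {x // P x} → X) Subtype.val) := by
  classical
  intro N F U₀ hP
  have hk : k.PosSemidef := Fact.out
  have hℓ : ℓ.PosSemidef := Fact.out
  rcases Nat.eq_zero_or_pos N with hN | hN
  · subst hN
    refine ⟨U₀, fun _ _ => rfl, fun J _ y c => ?_⟩
    have e : pickForm (k.submatrix (Subtype.val : {x // P x} → X) Subtype.val)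
        (ℓ.submatrix (Subtype.val : {x // P x} → X) Subtype.val)
        (fun j => (y j, c j, U₀ (y j) (c j))) = 0 := by
      ext i j
      rw [pickForm_apply]
      simp [PiLp.inner_apply]
    rw [e]
    exact Matrix.PosSemidef.zero
  rcases Nat.eq_zero_or_pos F.card with hF | hF
  · rw [Finset.card_eq_zero] at hF
    subst hF
    refine ⟨fun _ => 0, fun x hx => absurd hx (Finset.notMem_empty x), fun J _ y c => ?_⟩
    have e : pickForm (k.submatrix (Subtype.val : {x // P x} → X) Subtype.val)
        (ℓ.submatrix (Subtype.val : {x // P x} → X) Subtype.val)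
        (fun j => (y j, c j, (0 : CN N →ₗ[ℂ] CN N) (c j)))
        = (ℓ.submatrix (fun j => (y j).1) (fun j => (y j).1)) ⊙ Matrix.gram ℂ c := by
      ext i j
      rw [pickForm_apply]
      simp
    rw [e]
    exact (hℓ.submatrix _).hadamard (Matrix.posSemidef_gram ℂ _)
  let e := F.equivFin.symm
  let z : Fin F.card → X := fun i => ((e i).1 : {x // P x}).1
  have hz : Function.Injective z := by
    intro i j hij
    exact e.injective (Subtype.ext (Subtype.ext hij))
  let W : Fin F.card → Matrix (Fin N) (Fin N) ℂ := fun i =>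
    (Matrix.toEuclideanLin.symm (U₀ (e i).1))ᴴ
  have hW : ∀ i, Matrix.toEuclideanLin (W i)ᴴ = U₀ (e i).1 := by
    intro i
    simp only [W, Matrix.conjTranspose_conjTranspose, LinearEquiv.apply_symm_apply]
  have hpm : (pickMatrix k ℓ z W).PosSemidef := by
    have := hP.submatrix (fun p : Fin F.card × Fin N => (e p.1, p.2))
    have e2 : pickMatrix k ℓ z W = (pickForm (k.submatrix (Subtype.val : {x // P x} → X)
        Subtype.val) (ℓ.submatrix (Subtype.val : {x // P x} → X) Subtype.val)
        (fun q : F × Fin N => ((q.1 : {x // P x}), ee q.2, U₀ q.1 (ee q.2)))).submatrix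
        (fun p : Fin F.card × Fin N => (e p.1, p.2))
        (fun p : Fin F.card × Fin N => (e p.1, p.2)) := by
      ext p q
      rw [Matrix.submatrix_apply, pickForm_apply]
      simp only [← hW]
      rw [inner_ee, inner_ee_ee]
      rfl
    rw [e2]
    exact this
  obtain ⟨Φ, hΦ1, hΦ2⟩ := h F.card N hF hN z W hz hpm
  refine ⟨fun x => Matrix.toEuclideanLin (Φ x.1)ᴴ, ?_, ?_⟩
  · intro x hx
    have h1 : z (F.equivFin ⟨x, hx⟩) = x.1 := by simp [z, e]
    have h2 := hΦ2 (F.equivFin ⟨x, hx⟩)
    rw [h1] at h2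
    simp only [h2]
    rw [hW]
    simp [e]
  · intro J _ y c
    exact multiplier_psd hΦ1 (fun j => (y j).1) c

lemma psd_ones (X : Type*) : (Matrix.of fun _ _ => (1 : ℂ) : Matrix X X ℂ).PosSemidef := by
  apply psd_of_finite
  intro F
  have e : (Matrix.of fun _ _ => (1 : ℂ) : Matrix X X ℂ).submatrix
      (Subtype.val : F → X) Subtype.val = Matrix.gram ℂ (fun _ : F => (1 : ℂ)) := by
    ext i j
    simp
  rw [e]
  exact Matrix.posSemidef_gram ℂ _

/-- The restriction of a kernel to the points where `ℓ` does not vanish on the diagonal. -/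
def restrictTo (ℓ m : Matrix X X ℂ) : Matrix {x // ℓ x x ≠ 0} {x // ℓ x x ≠ 0} ℂ :=
  m.submatrix Subtype.val Subtype.val

/-- For every complete Pick pair, the restriction of the pair to the points where `ℓ` does not
vanish on the diagonal has a Shimorin certificate. -/
theorem certificate_restrict {X : Type u} {k ℓ : Matrix X X ℂ} [hk' : Fact k.PosSemidef]
    [hℓ' : Fact ℓ.PosSemidef] (h : IsCPPair k ℓ) :
    HasShimorinCertificate (restrictTo ℓ k) (restrictTo ℓ ℓ) := by
  have hA := absCP_of_isCPPair h (fun x => ℓ x x ≠ 0)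
  choose p hp using cert_of_absCP (hk'.out.submatrix _) (hℓ'.out.submatrix _)
        (fun x => x.2) hA
  exact ⟨p, hp⟩

/-- The positive answer for pairs with `ℓ(x, x) ≠ 0` whenever `k(x, x) ≠ 0`. -/
theorem certificate_of_isCPPair {X : Type u} {k ℓ : Matrix X X ℂ} [hk' : Fact k.PosSemidef]
    [hℓ' : Fact ℓ.PosSemidef] (hnd : ∀ x, ℓ x x = 0 → k x x = 0) (h : IsCPPair k ℓ) :
    HasShimorinCertificate k ℓ := by
  classical
  have hk : k.PosSemidef := hk'.out
  have hℓ : ℓ.PosSemidef := hℓ'.out
  have key : ∀ z, CertAt k ℓ (zker k z) (zker ℓ z) := by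
    intro z
    by_cases hz : ℓ z z = 0
    · have hkz := hnd z hz
      refine ⟨Matrix.of fun _ _ => 1, psd_ones X, ?_, ?_⟩
      · have e : zker ℓ z - (Matrix.of fun _ _ => 1) ⊙ ℓ = 0 := by
          ext x y
          simp [zker_apply, hz]
        rw [e]
        exact Matrix.PosSemidef.zero
      · have e : (Matrix.of fun _ _ => 1) ⊙ k - zker k z = 0 := by
          ext x y
          simp [zker_apply, hkz]
        rw [e]
        exact Matrix.PosSemidef.zero
    · have hA := absCP_of_isCPPair h (fun x => ℓ x x ≠ 0)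
      obtain ⟨p, hp, h1, h2⟩ := cert_of_absCP (hk.submatrix _) (hℓ.submatrix _)
        (fun x => x.2) hA (⟨z, hz⟩ : {x // ℓ x x ≠ 0})
      let P : Matrix X X ℂ := Matrix.of fun x y =>
        if h : ℓ x x ≠ 0 ∧ ℓ y y ≠ 0 then p ⟨x, h.1⟩ ⟨y, h.2⟩ else 0
      have hP1 : ∀ x y, ¬ (ℓ x x ≠ 0) → P x y = 0 := by
        intro x y hx
        simp only [P, Matrix.of_apply]
        rw [dif_neg]
        intro h3
        exact hx h3.1
      have hP2 : ∀ x y, ¬ (ℓ y y ≠ 0) → P x y = 0 := by
        intro x y hy
        simp only [P, Matrix.of_apply]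
        rw [dif_neg]
        intro h3
        exact hy h3.2
      have hPs : P.submatrix (Subtype.val : {x // ℓ x x ≠ 0} → X) Subtype.val = p := by
        ext x y
        simp only [P, Matrix.submatrix_apply, Matrix.of_apply]
        rw [dif_pos ⟨x.2, y.2⟩]
      refine ⟨P, ?_, ?_, ?_⟩
      · refine psd_of_support (fun x => ℓ x x ≠ 0) hP1 hP2 ?_
        rw [hPs]
        exact hp
      · refine psd_of_support (fun x => ℓ x x ≠ 0) ?_ ?_ ?_
        · intro x y hx
          have hx' := not_not.mp hx
          simp only [Matrix.sub_apply, Matrix.hadamard_apply, hP1 x y hx, zker_apply]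
          rw [psd_zero_row hℓ hx', psd_zero_row hℓ hx']
          simp
        · intro x y hy
          have hy' := not_not.mp hy
          simp only [Matrix.sub_apply, Matrix.hadamard_apply, hP2 x y hy, zker_apply]
          rw [psd_zero_col hℓ hy', psd_zero_col hℓ hy']
          simp
        · have e : (zker ℓ z - P ⊙ ℓ).submatrix (Subtype.val : {x // ℓ x x ≠ 0} → X) Subtype.val
              = zker (ℓ.submatrix (Subtype.val : {x // ℓ x x ≠ 0} → X) Subtype.val) ⟨z, hz⟩
                - p ⊙ ℓ.submatrix (Subtype.val : {x // ℓ x x ≠ 0} → X) Subtype.val := by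
            rw [← hPs]
            rfl
          rw [e]
          exact h1
      · refine psd_of_support (fun x => ℓ x x ≠ 0) ?_ ?_ ?_
        · intro x y hx
          have hx' := hnd x (not_not.mp hx)
          simp only [Matrix.sub_apply, Matrix.hadamard_apply, hP1 x y hx, zker_apply]
          rw [psd_zero_row hk hx', psd_zero_row hk hx']
          simp
        · intro x y hy
          have hy' := hnd y (not_not.mp hy)
          simp only [Matrix.sub_apply, Matrix.hadamard_apply, hP2 x y hy, zker_apply]
          rw [psd_zero_col hk hy', psd_zero_col hk hy']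
          simp
        · have e : (P ⊙ k - zker k z).submatrix (Subtype.val : {x // ℓ x x ≠ 0} → X) Subtype.val
              = p ⊙ k.submatrix (Subtype.val : {x // ℓ x x ≠ 0} → X) Subtype.val
                - zker (k.submatrix (Subtype.val : {x // ℓ x x ≠ 0} → X) Subtype.val) ⟨z, hz⟩ := by
            rw [← hPs]
            rfl
          rw [e]
          exact h2
  choose p hp using key
  exact ⟨p, hp⟩

end Pool.Agent.Lib.PickPairs

end
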