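import Pool.Agent.Lib.MP_e3a8c8_an.Douglas

/-!
The one-point extension lemma.
-/

set_option autoImplicit false

noncomputable section

namespace Pool.Agent.Lib.PickPairs

open scoped ComplexOrder Matrix InnerProductSpace

universe u

section zker

variable {X : Type*} {k : Matrix X X ℂ}

lemma psd_zero_row (hk : k.PosSemidef) {z : X} (hz : k z z = 0) (y : X) : k z y = 0 := by
  obtain ⟨ξ, hξ⟩ := exists_gram (hk.submatrix ![z, y])
  have h1 : ⟪ξ 0, ξ 0⟫_ℂ = 0 := by
    have := congrFun (congrFun hξ 0) 0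
    simp only [Matrix.submatrix_apply, Matrix.cons_val_zero, Matrix.gram_apply] at this
    rw [← this, hz]
  have h2 : ξ 0 = 0 := inner_self_eq_zero.mp h1
  have := congrFun (congrFun hξ 0) 1
  simp only [Matrix.submatrix_apply, Matrix.cons_val_zero, Matrix.cons_val_one,
    Matrix.gram_apply] at this
  rw [this, h2, inner_zero_left]

lemma psd_zero_col (hk : k.PosSemidef) {z : X} (hz : k z z = 0) (y : X) : k y z = 0 := by
  rw [← hk.isHermitian.apply y z, psd_zero_row hk hz y, star_zero]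

lemma psd_diag (hk : k.PosSemidef) (z : X) :
    0 ≤ (k z z).re ∧ ((k z z).re : ℂ) = k z z := by
  have h1 : 0 ≤ k z z := hk.diag_nonneg
  have h2 := Complex.nonneg_iff.mp h1
  exact ⟨h2.1, Complex.ext (by simp) (by simp [h2.2])⟩

lemma zker_apply (z x y : X) : zker k z x y = k x y - k x z * k z y / k z z := rfl

lemma zker_isHermitian (hk : k.PosSemidef) (z : X) : (zker k z).IsHermitian := by
  refine Matrix.IsHermitian.ext fun x y => ?_
  have h := hk.isHermitian
  rw [zker_apply, zker_apply, star_sub, star_div₀, star_mul, h.apply, h.apply, h.apply, h.apply]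

lemma zker_self_left (hk : k.PosSemidef) (z y : X) : zker k z z y = 0 := by
  rw [zker_apply]
  by_cases h : k z z = 0
  · rw [psd_zero_row hk h y]; simp
  · field_simp
    ring

lemma zker_self_right (hk : k.PosSemidef) (z x : X) : zker k z x z = 0 := by
  rw [← (zker_isHermitian hk z).apply x z, zker_self_left hk, star_zero]

end zker

variable {X : Type*} {V : Type*} [NormedAddCommGroup V] [InnerProductSpace ℂ V]

/-- The form attached to the data `d i = (x_i, ξ_i, η_i)`:
`ℓ(x_i, x_j) ⟪ξ_i, ξ_j⟫ - k(x_i, x_j) ⟪η_i, η_j⟫`. -/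
def pickForm (k ℓ : Matrix X X ℂ) {I : Type*} (d : I → X × V × V) : Matrix I I ℂ :=
  Matrix.of fun i j => ℓ (d i).1 (d j).1 * ⟪(d i).2.1, (d j).2.1⟫_ℂ
    - k (d i).1 (d j).1 * ⟪(d i).2.2, (d j).2.2⟫_ℂ

lemma pickForm_apply (k ℓ : Matrix X X ℂ) {I : Type*} (d : I → X × V × V) (i j : I) :
    pickForm k ℓ d i j = ℓ (d i).1 (d j).1 * ⟪(d i).2.1, (d j).2.1⟫_ℂ
    - k (d i).1 (d j).1 * ⟪(d i).2.2, (d j).2.2⟫_ℂ := rfl

lemma pickForm_comp (k ℓ : Matrix X X ℂ) {I J : Type*} (d : I → X × V × V) (f : J → I) :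
    pickForm k ℓ (d ∘ f) = (pickForm k ℓ d).submatrix f f := rfl

/-- One-point extension. -/
lemma one_step {k ℓ : Matrix X X ℂ} (hk : k.PosSemidef) (hℓ : ℓ.PosSemidef) (w : X)
    (hw : ℓ w w ≠ 0) {I : Type u} [Fintype I] (d : I → X × V × V)
    (h1 : (pickForm k ℓ d).PosSemidef)
    (h2 : (pickForm (zker k w) (zker ℓ w) d).PosSemidef) {J : Type} [Fintype J] (v : J → V) :
    ∃ U : V →ₗ[ℂ] V,
      (pickForm k ℓ (Sum.elim d (fun b => (w, v b, U (v b))))).PosSemidef := by
  classical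
  obtain ⟨τ, hτ⟩ := exists_gram h2
  obtain ⟨hℓ0, hℓr⟩ := psd_diag hℓ w
  obtain ⟨hk0, hkr⟩ := psd_diag hk w
  set lam : ℝ := √(ℓ w w).re with hlam
  set κ : ℝ := √(k w w).re with hκ
  have hlam2 : (lam : ℂ) * lam = ℓ w w := by
    rw [← Complex.ofReal_mul, Real.mul_self_sqrt hℓ0, hℓr]
  have hκ2 : (κ : ℂ) * κ = k w w := by
    rw [← Complex.ofReal_mul, Real.mul_self_sqrt hk0, hkr]
  have hlam0 : (lam : ℂ) ≠ 0 := by
    intro h
    rw [h, mul_zero] at hlam2
    exact hw hlam2.symm
  let S : I → V := fun i => (ℓ w (d i).1 / lam) • (d i).2.1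
  let R : I → V := fun i => (k w (d i).1 / κ) • (d i).2.2
  let h : I → WithLp 2 (EuclideanSpace ℂ I × V) := fun i => WithLp.toLp 2 (τ i, S i)
  -- products
  have hSS : ∀ i j, ⟪S i, S j⟫_ℂ = ℓ (d i).1 w * ℓ w (d j).1 / ℓ w w
      * ⟪(d i).2.1, (d j).2.1⟫_ℂ := by
    intro i j
    simp only [S]
    rw [inner_smul_left, inner_smul_right, map_div₀, Complex.conj_ofReal,
      ← Complex.star_def, hℓ.isHermitian.apply, ← hlam2]
    field_simp
  have hRR : ∀ i j, ⟪R i, R j⟫_ℂ = k (d i).1 w * k w (d j).1 / k w w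
      * ⟪(d i).2.2, (d j).2.2⟫_ℂ := by
    intro i j
    simp only [R]
    rw [inner_smul_left, inner_smul_right, map_div₀, Complex.conj_ofReal,
      ← Complex.star_def, hk.isHermitian.apply, ← hκ2]
    by_cases hκ0 : (κ : ℂ) = 0
    · simp [hκ0]
    · field_simp
  have hττ : ∀ i j, ⟪τ i, τ j⟫_ℂ = zker ℓ w (d i).1 (d j).1 * ⟪(d i).2.1, (d j).2.1⟫_ℂ
      - zker k w (d i).1 (d j).1 * ⟪(d i).2.2, (d j).2.2⟫_ℂ := by
    intro i j
    have := congrFun (congrFun hτ i) j
    rw [Matrix.gram_apply] at this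
    rw [← this, pickForm_apply]
  have hgram : pickForm k ℓ d = Matrix.gram ℂ h - Matrix.gram ℂ R := by
    ext i j
    rw [Matrix.sub_apply, Matrix.gram_apply, Matrix.gram_apply, WithLp.prod_inner_apply]
    simp only [h]
    rw [hSS, hRR, hττ, pickForm_apply, zker_apply, zker_apply]
    ring
  rw [hgram] at h1
  obtain ⟨Y, hY1, hY2⟩ := exists_contraction h R h1
  let inr : V →ₗ[ℂ] WithLp 2 (EuclideanSpace ℂ I × V) :=
    (WithLp.linearEquiv 2 ℂ (EuclideanSpace ℂ I × V)).symm.toLinearMap ∘ₗ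
      LinearMap.inr ℂ (EuclideanSpace ℂ I) V
  let U : V →ₗ[ℂ] V := ((lam : ℂ) / κ) • (Y.toLinearMap ∘ₗ inr)
  refine ⟨U, ?_⟩
  let h' : I ⊕ J → WithLp 2 (EuclideanSpace ℂ I × V) :=
    Sum.elim h (fun b => (lam : ℂ) • inr (v b))
  let r' : I ⊕ J → V := Sum.elim R (fun b => (κ : ℂ) • U (v b))
  have hinr : ∀ x : V, inr x = WithLp.toLp 2 ((0 : EuclideanSpace ℂ I), x) := fun x => rfl
  have hnew : pickForm k ℓ (Sum.elim d (fun b => (w, v b, U (v b))))
      = Matrix.gram ℂ h' - Matrix.gram ℂ r' := by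
    have hkw : ∀ i, k (d i).1 w * ((κ : ℂ) / κ) = k (d i).1 w := by
      intro i
      by_cases hκ0 : (κ : ℂ) = 0
      · have h3 : k w w = 0 := by rw [← hκ2, hκ0, mul_zero]
        rw [psd_zero_col hk h3]
        simp
      · rw [div_self hκ0, mul_one]
    have hkw' : ∀ i, k w (d i).1 * ((κ : ℂ) / κ) = k w (d i).1 := by
      intro i
      by_cases hκ0 : (κ : ℂ) = 0
      · have h3 : k w w = 0 := by rw [← hκ2, hκ0, mul_zero]
        rw [psd_zero_row hk h3]
        simp
      · rw [div_self hκ0, mul_one]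
    ext p q
    rw [Matrix.sub_apply, Matrix.gram_apply, Matrix.gram_apply, pickForm_apply]
    rcases p with i | b <;> rcases q with j | b'
    · have := congrFun (congrFun hgram i) j
      rw [Matrix.sub_apply, Matrix.gram_apply, Matrix.gram_apply, pickForm_apply] at this
      simpa only [h', r', Sum.elim_inl] using this
    · simp only [h', r', Sum.elim_inl, Sum.elim_inr]
      rw [inner_smul_right, inner_smul_right, hinr, WithLp.prod_inner_apply]
      simp only [h, S, R, inner_zero_right, zero_add]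
      rw [inner_smul_left, inner_smul_left, map_div₀, map_div₀, Complex.conj_ofReal,
        Complex.conj_ofReal, ← Complex.star_def, hℓ.isHermitian.apply, hk.isHermitian.apply]
      have e1 : (lam : ℂ) * (ℓ (d i).1 w / lam * ⟪(d i).2.1, v b'⟫_ℂ)
          = ℓ (d i).1 w * ⟪(d i).2.1, v b'⟫_ℂ := by
        field_simp
      have e2 : (κ : ℂ) * (k (d i).1 w / κ * ⟪(d i).2.2, U (v b')⟫_ℂ)
          = k (d i).1 w * ⟪(d i).2.2, U (v b')⟫_ℂ := by
        conv_rhs => rw [← hkw i]
        ring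
      rw [e1, e2]
    · simp only [h', r', Sum.elim_inl, Sum.elim_inr]
      rw [inner_smul_left, inner_smul_left, hinr, WithLp.prod_inner_apply]
      simp only [h, S, R, inner_zero_left, zero_add]
      rw [inner_smul_right, inner_smul_right, Complex.conj_ofReal, Complex.conj_ofReal]
      have e1 : (lam : ℂ) * (ℓ w (d j).1 / lam * ⟪v b, (d j).2.1⟫_ℂ)
          = ℓ w (d j).1 * ⟪v b, (d j).2.1⟫_ℂ := by
        field_simp
      have e2 : (κ : ℂ) * (k w (d j).1 / κ * ⟪U (v b), (d j).2.2⟫_ℂ)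
          = k w (d j).1 * ⟪U (v b), (d j).2.2⟫_ℂ := by
        conv_rhs => rw [← hkw' j]
        ring
      rw [e1, e2]
    · simp only [h', r', Sum.elim_inr]
      rw [inner_smul_left, inner_smul_left, inner_smul_right, inner_smul_right, hinr, hinr,
        WithLp.prod_inner_apply]
      simp only [inner_zero_left, zero_add]
      rw [Complex.conj_ofReal, Complex.conj_ofReal, ← hlam2, ← hκ2]
      ring
  rw [hnew]
  apply psd_gram_sub
  intro a
  by_cases hκ0 : (κ : ℂ) = 0
  · have hz : ∑ i, a i • r' i = 0 := by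
      apply Finset.sum_eq_zero
      intro p _
      rcases p with i | b
      · simp [r', R, hκ0]
      · simp [r', hκ0]
    rw [hz, norm_zero]
    exact norm_nonneg _
  · have hr : ∀ p, r' p = Y (h' p) := by
      intro p
      rcases p with i | b
      · simp only [r', h', Sum.elim_inl]
        exact (hY2 i).symm
      · simp only [r', h', Sum.elim_inr, U]
        rw [map_smul, LinearMap.smul_apply, smul_smul]
        congr 1
        field_simp
    have hsum : ∑ i, a i • r' i = Y (∑ i, a i • h' i) := by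
      rw [map_sum]
      refine Finset.sum_congr rfl fun p _ => ?_
      rw [map_smul, hr]
    rw [hsum]
    exact hY1 _

end Pool.Agent.Lib.PickPairs

end
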