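import Pool.Agent.Lib.MP_e3a8c8_an.Defs

/-!
Basic facts on positive semidefinite matrices and the forms used in the Pick problem.
-/

set_option autoImplicit false

noncomputable section

namespace Pool.Agent.Lib.PickPairs

open scoped ComplexOrder Matrix InnerProductSpace

universe u v

/-- Positivity for a finite index type in terms of double sums. -/
lemma psd_iff_sum {I : Type u} [Fintype I] {M : Matrix I I ℂ} :
    M.PosSemidef ↔ M.IsHermitian ∧ ∀ x : I → ℂ, 0 ≤ (∑ i, ∑ j, star (x i) * M i j * x j).re := by
  rw [Matrix.posSemidef_iff_dotProduct_mulVec]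
  refine and_congr_right fun hM => forall_congr' fun x => ?_
  have h1 : star x ⬝ᵥ (M *ᵥ x) = ∑ i, ∑ j, star (x i) * M i j * x j := by
    simp only [dotProduct, Matrix.mulVec, Finset.mul_sum, Pi.star_apply, mul_assoc]
  rw [h1]
  have h2 : (∑ i, ∑ j, star (x i) * M i j * x j).im = 0 := by
    have h3 : star (∑ i, ∑ j, star (x i) * M i j * x j)
        = ∑ i, ∑ j, star (x i) * M i j * x j := by
      rw [star_sum]
      simp_rw [star_sum]
      rw [Finset.sum_comm]
      refine Finset.sum_congr rfl fun i _ => Finset.sum_congr rfl fun j _ => ?_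
      rw [star_mul, star_mul, star_star, hM.apply]
      ring
    exact Complex.conj_eq_iff_im.mp h3
  constructor
  · intro h
    exact (Complex.nonneg_iff.mp h).1
  · intro h
    exact Complex.nonneg_iff.mpr ⟨h, h2.symm⟩

/-- Positivity can be tested on finite families. -/
lemma psd_of_finite {I : Type u} {M : Matrix I I ℂ}
    (h : ∀ F : Finset I, (M.submatrix ((↑) : F → I) (↑)).PosSemidef) : M.PosSemidef := by
  classical
  refine ⟨?_, fun x => ?_⟩
  · refine Matrix.IsHermitian.ext fun i j => ?_
    have := (h {i, j}).isHermitian.apply ⟨i, by simp⟩ ⟨j, by simp⟩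
    simpa using this
  · have h1 := (h x.support).2 (x.subtypeDomain (fun i => i ∈ x.support))
    simpa [Finsupp.sum, ← Finset.sum_attach x.support, ← Finset.subtype_mem_eq_attach,
      ← Finsupp.subtypeDomain_apply, ← Finsupp.support_subtypeDomain] using h1

/-- A positive semidefinite matrix on a finite index type is a Gram matrix. -/
lemma exists_gram {I : Type u} [Fintype I] [DecidableEq I] {M : Matrix I I ℂ}
    (hM : M.PosSemidef) : ∃ ξ : I → EuclideanSpace ℂ I, M = Matrix.gram ℂ ξ := by
  open scoped MatrixOrder Matrix.Norms.L2Operator in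
  obtain ⟨B, hB⟩ := CStarAlgebra.nonneg_iff_eq_star_mul_self.mp hM.nonneg
  refine ⟨fun i => WithLp.toLp 2 (fun a => B a i), ?_⟩
  ext i j
  rw [hB]
  simp [Matrix.gram_apply, Matrix.mul_apply, PiLp.inner_apply, mul_comm]

end Pool.Agent.Lib.PickPairs

end
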