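import Pool.Agent.Lib.MP_e3a8c8_an.OneStep

/-!
Certificates give the one-point extension for tangential data, and hence the solution of
tangential interpolation problems on finite sets.
-/

set_option autoImplicit false

noncomputable section

namespace Pool.Agent.Lib.PickPairs

open scoped ComplexOrder Matrix InnerProductSpace

universe u v

/-- The local certificate at `w`. -/
def CertAt {X : Type*} (k ℓ : Matrix X X ℂ) (kw ℓw : Matrix X X ℂ) : Prop :=
  ∃ p : Matrix X X ℂ, p.PosSemidef ∧ (ℓw - p ⊙ ℓ).PosSemidef ∧ (p ⊙ k - kw).PosSemidef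

lemma cert_form {X : Type*} {V : Type*} [NormedAddCommGroup V] [InnerProductSpace ℂ V]
    {k ℓ kw ℓw : Matrix X X ℂ} (hc : CertAt k ℓ kw ℓw) {I : Type*} [Finite I]
    (d : I → X × V × V) (hd : (pickForm k ℓ d).PosSemidef) :
    (pickForm kw ℓw d).PosSemidef := by
  obtain ⟨p, hp, h1, h2⟩ := hc
  have e : pickForm kw ℓw d
      = ((ℓw - p ⊙ ℓ).submatrix (fun i => (d i).1) (fun i => (d i).1)
          ⊙ Matrix.gram ℂ (fun i => (d i).2.1)
        + (p.submatrix (fun i => (d i).1) (fun i => (d i).1)) ⊙ pickForm k ℓ d)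
        + (p ⊙ k - kw).submatrix (fun i => (d i).1) (fun i => (d i).1)
          ⊙ Matrix.gram ℂ (fun i => (d i).2.2) := by
    ext i j
    simp only [pickForm_apply, Matrix.add_apply, Matrix.hadamard_apply, Matrix.submatrix_apply,
      Matrix.sub_apply, Matrix.gram_apply]
    ring
  rw [e]
  exact (((h1.submatrix _).hadamard (Matrix.posSemidef_gram ℂ _)).add
    ((hp.submatrix _).hadamard hd)).add ((h2.submatrix _).hadamard (Matrix.posSemidef_gram ℂ _))

/-- Basis vector of `ℂ^N`. -/
def ee {N : ℕ} (b : Fin N) : CN N := EuclideanSpace.single b 1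

/-- Solution of (generalised) tangential interpolation problems. -/
lemma tangential {X : Type u} [DecidableEq X] {k ℓ : Matrix X X ℂ} (hk : k.PosSemidef)
    (hℓ : ℓ.PosSemidef)
    (S : Finset X) (hS : ∀ w ∈ S, ℓ w w ≠ 0 ∧ CertAt k ℓ (zker k w) (zker ℓ w)) {N : ℕ}
    {I : Type v} [Fintype I] (d : I → X × CN N × CN N) (hd : (pickForm k ℓ d).PosSemidef) :
    ∃ U : X → (CN N →ₗ[ℂ] CN N),
      (pickForm k ℓ (Sum.elim d
        (fun q : S × Fin N => (q.1.1, ee q.2, U q.1.1 (ee q.2))))).PosSemidef := by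
  classical
  induction S using Finset.induction_on with
  | empty =>
    refine ⟨fun _ => 0, ?_⟩
    let f : I ⊕ (↥(∅ : Finset X) × Fin N) → I :=
      Sum.elim id (fun q => (Finset.notMem_empty _ q.1.2).elim)
    have e : (Sum.elim d
        (fun q : ↥(∅ : Finset X) × Fin N => (q.1.1, ee q.2, (0 : CN N →ₗ[ℂ] CN N) (ee q.2))))
        = d ∘ f := by
      funext p
      rcases p with i | b
      · rfl
      · exact (Finset.notMem_empty _ b.1.2).elim
    rw [e, pickForm_comp]
    exact hd.submatrix _
  | insert a S ha ih =>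
    obtain ⟨U, hU⟩ := ih (fun w hw => hS w (Finset.mem_insert_of_mem hw))
    obtain ⟨hane, hcert⟩ := hS a (Finset.mem_insert_self a S)
    have h2 := cert_form hcert _ hU
    obtain ⟨Ua, hUa⟩ := one_step hk hℓ a hane _ hU h2 (fun b : Fin N => ee b)
    refine ⟨Function.update U a Ua, ?_⟩
    let f : I ⊕ (↥(insert a S) × Fin N) → (I ⊕ (S × Fin N)) ⊕ Fin N :=
      Sum.elim (fun i => Sum.inl (Sum.inl i))
        (fun q => if h : q.1.1 = a then Sum.inr q.2
          else Sum.inl (Sum.inr (⟨q.1.1, Finset.mem_of_mem_insert_of_ne q.1.2 h⟩, q.2)))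
    have e : (Sum.elim d (fun q : ↥(insert a S) × Fin N =>
        (q.1.1, ee q.2, (Function.update U a Ua) q.1.1 (ee q.2))))
        = (Sum.elim (Sum.elim d (fun q : S × Fin N => (q.1.1, ee q.2, U q.1.1 (ee q.2))))
          (fun b => (a, ee b, Ua (ee b)))) ∘ f := by
      funext p
      rcases p with i | q
      · rfl
      · by_cases h : q.1.1 = a
        · simp only [f, Function.comp_apply, Sum.elim_inr, h, dif_pos, Function.update_self]
        · simp only [f, Function.comp_apply, Sum.elim_inr, h, dif_neg, not_false_eq_true,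
            Sum.elim_inl, Function.update_of_ne, ne_eq]
    rw [e, pickForm_comp]
    exact hUa.submatrix _

end Pool.Agent.Lib.PickPairs

end
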